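import Pool.Agent.R737.HO.Energy

open Filter Topology Set MeasureTheory Laplacian InnerProductSpace
open scoped ContDiff NNReal ENNReal Real

namespace Pool.Agent.R737.HO

/-- oscillation bound on the circle for a Lipschitz function of one variable -/
lemma osc_sq_le {g : ℝ → ℝ} {K : ℝ≥0} (hg : LipschitzWith K g) {a b : ℝ}
    (ha : a ∈ Ioc (-π) π) (hb : b ∈ Ioc (-π) π) :
    (g b - g a) ^ 2 ≤ 2 * π * ∫ x in Ioc (-π) π, (deriv g x) ^ 2 := by
  have hbd : ∀ x, ‖deriv g x‖ ≤ K := fun x => norm_deriv_le_of_lipschitz hg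
  have hm : Measurable (deriv g) := measurable_deriv g
  have hfin : volume (Ioc (-π) π) ≠ ⊤ := by simp
  have hfin' : volume.real (Ioc (-π) π) = 2 * π := by
    simp [Real.volume_real_Ioc]; rw [max_eq_left]; ring; positivity
  have i1 : IntegrableOn (fun x => ‖deriv g x‖) (Ioc (-π) π) := by
    apply Measure.integrableOn_of_bounded (M := K) hfin hm.norm.aestronglyMeasurable
    exact Eventually.of_forall fun x => by rw [norm_norm]; exact hbd x
  have i2 : IntegrableOn (fun x => (deriv g x) ^ 2) (Ioc (-π) π) := by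
    apply Measure.integrableOn_of_bounded (M := K ^ 2) hfin (hm.pow_const 2).aestronglyMeasurable
    exact Eventually.of_forall fun x => by
      rw [norm_pow]
      exact pow_le_pow_left₀ (norm_nonneg _) (hbd x) 2
  have h1 : g b - g a = ∫ x in a..b, deriv g x :=
    (hg.lipschitzOnWith.absolutelyContinuousOnInterval.integral_deriv_eq_sub).symm
  have h2 : |g b - g a| ≤ ∫ x in Ioc (-π) π, ‖deriv g x‖ := by
    rw [h1, ← Real.norm_eq_abs]
    refine (intervalIntegral.norm_integral_le_integral_norm_uIoc).trans ?_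
    apply setIntegral_mono_set i1
    · exact Eventually.of_forall fun x => norm_nonneg _
    · refine LE.le.eventuallyLE ?_
      intro x hx
      rw [mem_uIoc] at hx
      rcases hx with hx | hx
      · exact ⟨ha.1.trans hx.1, hx.2.trans hb.2⟩
      · exact ⟨hb.1.trans hx.1, hx.2.trans ha.2⟩
  set A := ∫ x in Ioc (-π) π, ‖deriv g x‖ with hA
  set B := ∫ x in Ioc (-π) π, (deriv g x) ^ 2 with hB
  have hA0 : 0 ≤ A := integral_nonneg fun x => norm_nonneg _
  have h3 : A ^ 2 ≤ 2 * π * B := by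
    set c := A / (2 * π) with hc
    have h4 : 0 ≤ ∫ x in Ioc (-π) π, (‖deriv g x‖ - c) ^ 2 := integral_nonneg fun x => sq_nonneg _
    have h5 : ∫ x in Ioc (-π) π, (‖deriv g x‖ - c) ^ 2 = B - 2 * c * A + c ^ 2 * (2 * π) := by
      have h6 : ∀ x, (‖deriv g x‖ - c) ^ 2 = (deriv g x) ^ 2 - (2 * c) * ‖deriv g x‖ + c ^ 2 := by
        intro x
        have : ‖deriv g x‖ ^ 2 = (deriv g x) ^ 2 := by rw [Real.norm_eq_abs, sq_abs]
        rw [← this]; ring
      simp_rw [h6]
      have i3 : Integrable (fun x => (2 * c) * ‖deriv g x‖) (volume.restrict (Ioc (-π) π)) :=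
        i1.const_mul _
      have i4 : Integrable (fun _ : ℝ => c ^ 2) (volume.restrict (Ioc (-π) π)) :=
        integrableOn_const hfin
      have i5 : Integrable (fun x => (deriv g x) ^ 2 - (2 * c) * ‖deriv g x‖)
        (volume.restrict (Ioc (-π) π)) := i2.sub i3
      rw [integral_add i5 i4, integral_sub i2 i3, integral_const_mul]
      simp only [integral_const, MeasurableSet.univ, measureReal_restrict_apply, univ_inter,
        smul_eq_mul]
      rw [hfin']
      ring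
    rw [h5] at h4
    have hpi := Real.pi_pos
    have h7 : c * (2 * π) = A := by rw [hc]; field_simp
    nlinarith
  calc (g b - g a) ^ 2 = |g b - g a| ^ 2 := (sq_abs _).symm
    _ ≤ A ^ 2 := pow_le_pow_left₀ (abs_nonneg _) h2 2
    _ ≤ _ := h3

/-- extended-real-valued squared gradient, equal to `⊤` where `ψ` is not differentiable -/
noncomputable def Egr (ψ : ℂ → ℝ) (z : ℂ) : ℝ≥0∞ :=
  open scoped Classical in if DifferentiableAt ℝ ψ z then ENNReal.ofReal (gr ψ z) else ⊤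

lemma measurable_Egr (ψ : ℂ → ℝ) : Measurable (Egr ψ) := by
  classical
  have h1 : MeasurableSet {z | DifferentiableAt ℝ ψ z} := measurableSet_of_differentiableAt ℝ ψ
  have h2 : Egr ψ = fun z => if z ∈ {z | DifferentiableAt ℝ ψ z} then ENNReal.ofReal (gr ψ z)
      else ⊤ := by
    funext z
    unfold Egr
    simp only [mem_ofPred_eq]
  rw [h2]
  exact Measurable.ite h1 (measurable_gr ψ).ennreal_ofReal measurable_const

lemma hasDerivAt_circle (r θ : ℝ) :
    HasDerivAt (fun θ : ℝ => (r : ℂ) * (Real.cos θ + Real.sin θ * Complex.I))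
      ((r : ℂ) * (-Real.sin θ + Real.cos θ * Complex.I)) θ := by
  have h1 : HasDerivAt (fun θ : ℝ => ((Real.cos θ : ℝ) : ℂ)) ((-Real.sin θ : ℝ) : ℂ) θ :=
    (Real.hasDerivAt_cos θ).ofReal_comp
  have h2 : HasDerivAt (fun θ : ℝ => ((Real.sin θ : ℝ) : ℂ)) ((Real.cos θ : ℝ) : ℂ) θ :=
    (Real.hasDerivAt_sin θ).ofReal_comp
  have h3 := (h1.fun_add (h2.mul_const Complex.I)).const_mul (r : ℂ)
  have e : ((-Real.sin θ : ℝ) : ℂ) = -((Real.sin θ : ℝ) : ℂ) := by push_cast; rfl
  rw [e] at h3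
  exact h3

lemma norm_circle_deriv {r : ℝ} (hr : 0 ≤ r) (θ : ℝ) :
    ‖(r : ℂ) * (-Real.sin θ + Real.cos θ * Complex.I)‖ = r := by
  rw [norm_mul, Complex.norm_real, Real.norm_of_nonneg hr]
  have : ‖(-Real.sin θ + Real.cos θ * Complex.I : ℂ)‖ = 1 := by
    have h : ((-Real.sin θ : ℝ) : ℂ) + ((Real.cos θ : ℝ) : ℂ) * Complex.I
        = (-Real.sin θ + Real.cos θ * Complex.I : ℂ) := by push_cast; rfl
    rw [← h, Complex.norm_add_mul_I]
    have : (-Real.sin θ) ^ 2 + Real.cos θ ^ 2 = 1 := by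
      rw [neg_sq]; exact Real.sin_sq_add_cos_sq θ
    rw [this, Real.sqrt_one]
  rw [this, mul_one]

/-- bound of `ψ` on the circle of radius `r` -/
lemma circle_bound {ψ : ℂ → ℝ} (hψ : LC ψ) {r m : ℝ} (hr : 0 < r) {z₀ : ℂ} (hz₀ : ‖z₀‖ = r)
    (hm : |ψ z₀| ≤ m) {θ : ℝ} (hθ : θ ∈ Ioc (-π) π) :
    ENNReal.ofReal ((ψ (Complex.polarCoord.symm (r, θ))) ^ 2) ≤ ENNReal.ofReal (2 * m ^ 2) +
      ENNReal.ofReal (4 * π * r ^ 2) *
        ∫⁻ x in Ioc (-π) π, Egr ψ (Complex.polarCoord.symm (r, x)) := by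
  obtain ⟨⟨K, hK⟩, hc⟩ := hψ
  have hP : ∀ x : ℝ, Complex.polarCoord.symm (r, x)
      = (r : ℂ) * (Real.cos x + Real.sin x * Complex.I) := fun x => by
    rw [Complex.polarCoord_symm_apply]
  set g : ℝ → ℝ := fun x => ψ ((r : ℂ) * (Real.cos x + Real.sin x * Complex.I)) with hg
  have hlip1 : LipschitzWith ⟨r, hr.le⟩
      (fun x : ℝ => (r : ℂ) * (Real.cos x + Real.sin x * Complex.I)) := by
    apply lipschitzWith_of_nnnorm_deriv_le
    · intro x
      exact (hasDerivAt_circle r x).differentiableAt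
    · intro x
      rw [(hasDerivAt_circle r x).deriv, ← NNReal.coe_le_coe, coe_nnnorm,
        norm_circle_deriv hr.le]
      exact le_refl _
  have hlip : LipschitzWith (K * ⟨r, hr.le⟩) g := hK.comp hlip1
  have hθ₀ : Complex.arg z₀ ∈ Ioc (-π) π := Complex.arg_mem_Ioc z₀
  have hz₀' : g (Complex.arg z₀) = ψ z₀ := by
    simp only [hg]
    congr 1
    rw [← hz₀]
    have := Complex.norm_mul_cos_add_sin_mul_I z₀
    push_cast at this ⊢
    exact this
  have h1 := osc_sq_le hlip hθ₀ hθ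
  rw [hz₀'] at h1
  have h2 : (g θ) ^ 2 ≤ 2 * m ^ 2 + 4 * π * ∫ x in Ioc (-π) π, (deriv g x) ^ 2 := by
    have h3 : (g θ) ^ 2 ≤ 2 * (ψ z₀) ^ 2 + 2 * (g θ - ψ z₀) ^ 2 := by
      nlinarith [sq_nonneg (g θ - 2 * ψ z₀)]
    have h4 : (ψ z₀) ^ 2 ≤ m ^ 2 := by
      rw [← sq_abs]
      exact pow_le_pow_left₀ (abs_nonneg _) hm 2
    linarith
  have hbd : ∀ x, ‖deriv g x‖ ≤ (K * ⟨r, hr.le⟩ : ℝ≥0) := fun x => norm_deriv_le_of_lipschitz hlip
  have hmg : Measurable (deriv g) := measurable_deriv g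
  have hfin : volume (Ioc (-π) π) ≠ ⊤ := by simp
  have i2 : IntegrableOn (fun x => (deriv g x) ^ 2) (Ioc (-π) π) := by
    apply Measure.integrableOn_of_bounded (M := ((K * ⟨r, hr.le⟩ : ℝ≥0) : ℝ) ^ 2) hfin
      (hmg.pow_const 2).aestronglyMeasurable
    exact Eventually.of_forall fun x => by
      rw [norm_pow]
      exact pow_le_pow_left₀ (norm_nonneg _) (hbd x) 2
  have h5 : ∀ x, ENNReal.ofReal ((deriv g x) ^ 2)
      ≤ ENNReal.ofReal (r ^ 2) * Egr ψ (Complex.polarCoord.symm (r, x)) := by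
    intro x
    rw [hP]
    by_cases hd : DifferentiableAt ℝ ψ ((r : ℂ) * (Real.cos x + Real.sin x * Complex.I))
    · have h6 : HasDerivAt g (fderiv ℝ ψ ((r : ℂ) * (Real.cos x + Real.sin x * Complex.I))
          ((r : ℂ) * (-Real.sin x + Real.cos x * Complex.I))) x :=
        hd.hasFDerivAt.comp_hasDerivAt x (hasDerivAt_circle r x)
      rw [h6.deriv, Egr, if_pos hd, ← ENNReal.ofReal_mul (by positivity)]
      apply ENNReal.ofReal_le_ofReal
      have h7 := fderiv_apply_sq_le ψ ((r : ℂ) * (Real.cos x + Real.sin x * Complex.I))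
        ((r : ℂ) * (-Real.sin x + Real.cos x * Complex.I))
      rw [norm_circle_deriv hr.le] at h7
      linarith
    · rw [Egr, if_neg hd]
      rw [ENNReal.mul_top]
      · exact le_top
      · rw [Ne, ENNReal.ofReal_eq_zero, not_le]
        positivity
  have h8 : ENNReal.ofReal (∫ x in Ioc (-π) π, (deriv g x) ^ 2)
      ≤ ENNReal.ofReal (r ^ 2) * ∫⁻ x in Ioc (-π) π, Egr ψ (Complex.polarCoord.symm (r, x)) := by
    rw [ofReal_integral_eq_lintegral_ofReal i2 (Eventually.of_forall fun x => sq_nonneg _),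
      ← lintegral_const_mul' _ _ ENNReal.ofReal_ne_top]
    exact lintegral_mono h5
  rw [hP]
  calc ENNReal.ofReal ((ψ ((r : ℂ) * (Real.cos θ + Real.sin θ * Complex.I))) ^ 2)
      ≤ ENNReal.ofReal (2 * m ^ 2 + 4 * π * ∫ x in Ioc (-π) π, (deriv g x) ^ 2) :=
        ENNReal.ofReal_le_ofReal h2
    _ ≤ ENNReal.ofReal (2 * m ^ 2) + ENNReal.ofReal (4 * π * ∫ x in Ioc (-π) π, (deriv g x) ^ 2) :=
        ENNReal.ofReal_add_le
    _ = ENNReal.ofReal (2 * m ^ 2) + ENNReal.ofReal (4 * π) *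
          ENNReal.ofReal (∫ x in Ioc (-π) π, (deriv g x) ^ 2) := by
        rw [ENNReal.ofReal_mul (p := 4 * π) (by positivity)]
    _ ≤ ENNReal.ofReal (2 * m ^ 2) + ENNReal.ofReal (4 * π) * (ENNReal.ofReal (r ^ 2) *
          ∫⁻ x in Ioc (-π) π, Egr ψ (Complex.polarCoord.symm (r, x))) := by gcongr
    _ = _ := by
        rw [← mul_assoc, ← ENNReal.ofReal_mul (by positivity)]

lemma lintegral_polar (f : ℂ → ℝ≥0∞) (hf : Measurable f) :
    ∫⁻ z, f z = ∫⁻ r in Ioi (0:ℝ), ENNReal.ofReal r *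
      ∫⁻ x in Ioc (-π) π, f (Complex.polarCoord.symm (r, x)) := by
  rw [← Complex.lintegral_comp_polarCoord_symm, polarCoord_target, Measure.volume_eq_prod,
    ← Measure.prod_restrict]
  have hcont : Continuous (fun p : ℝ × ℝ => Complex.polarCoord.symm p) := by
    have : (fun p : ℝ × ℝ => Complex.polarCoord.symm p)
        = fun p => (p.1 : ℂ) * (Real.cos p.2 + Real.sin p.2 * Complex.I) := by
      funext p; rw [Complex.polarCoord_symm_apply]
    rw [this]
    fun_prop
  rw [lintegral_prod]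
  · apply lintegral_congr
    intro r
    simp only [smul_eq_mul]
    rw [lintegral_const_mul' _ _ ENNReal.ofReal_ne_top]
    congr 1
    exact setLIntegral_congr Ioo_ae_eq_Ioc
  · apply Measurable.aemeasurable
    simp only [smul_eq_mul]
    exact (measurable_fst.ennreal_ofReal).mul (hf.comp hcont.measurable)

/-- Poincaré-type inequality on the circles -/
lemma poincare {ψ : ℂ → ℝ} (hψ : LC ψ) {κ : ℝ}
    (hsupp : ∀ z, ‖z‖ ≤ 1 → ψ z = 0) (hcirc : ∀ r > 1, ∃ z : ℂ, ‖z‖ = r ∧ |ψ z| ≤ κ / r) :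
    ∫ z, (ψ z) ^ 2 / ‖z‖ ^ 2 ≤ 2 * π * κ ^ 2 + 8 * π ^ 2 * ∫ z, gr ψ z := by
  have hmeas : Measurable (fun z => ENNReal.ofReal ((ψ z) ^ 2 / ‖z‖ ^ 2)) := by
    have := hψ.continuous.measurable
    fun_prop
  have hmX : Measurable (fun z => (ψ z) ^ 2 / ‖z‖ ^ 2) :=
    (hψ.continuous.measurable.pow_const 2).div (measurable_norm.pow_const 2)
  rw [integral_eq_lintegral_of_nonneg_ae (f := fun z => (ψ z) ^ 2 / ‖z‖ ^ 2)
    (Eventually.of_forall fun z => by positivity) hmX.aestronglyMeasurable]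
  have hgr0 : 0 ≤ ∫ z, gr ψ z := integral_nonneg (gr_nonneg ψ)
  refine ENNReal.toReal_le_of_le_ofReal (by positivity) ?_
  rw [lintegral_polar _ hmeas]
  have hE : ∫⁻ z, Egr ψ z = ENNReal.ofReal (∫ z, gr ψ z) := by
    rw [ofReal_integral_eq_lintegral_ofReal hψ.integrable_gr
      (Eventually.of_forall (gr_nonneg ψ))]
    apply lintegral_congr_ae
    filter_upwards [hψ.ae_differentiableAt] with z hz
    rw [Egr, if_pos hz]
  rw [lintegral_polar _ (measurable_Egr ψ)] at hE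
  have hI3 : ∫⁻ r in Ioi (1:ℝ), ENNReal.ofReal (4 * π * κ ^ 2 * r ^ (-3 : ℝ))
      = ENNReal.ofReal (2 * π * κ ^ 2) := by
    have h1 : IntegrableOn (fun r : ℝ => 4 * π * κ ^ 2 * r ^ (-3 : ℝ)) (Ioi 1) :=
      (integrableOn_Ioi_rpow_of_lt (by norm_num) one_pos).const_mul _
    rw [← ofReal_integral_eq_lintegral_ofReal h1]
    · rw [integral_const_mul, integral_Ioi_rpow_of_lt (by norm_num) one_pos]
      congr 1
      norm_num
      ring
    · filter_upwards [ae_restrict_mem measurableSet_Ioi] with r hr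
      have : (0:ℝ) < r := one_pos.trans hr
      show (0:ℝ) ≤ 4 * π * κ ^ 2 * r ^ (-3 : ℝ)
      positivity
  have hkey : ∀ r ∈ Ioi (0:ℝ), ENNReal.ofReal r * ∫⁻ x in Ioc (-π) π,
      ENNReal.ofReal ((ψ (Complex.polarCoord.symm (r, x))) ^ 2 /
        ‖Complex.polarCoord.symm (r, x)‖ ^ 2)
      ≤ (Ioi (1:ℝ)).indicator (fun r => ENNReal.ofReal (4 * π * κ ^ 2 * r ^ (-3 : ℝ))) r
        + ENNReal.ofReal (8 * π ^ 2) * (ENNReal.ofReal r *
          ∫⁻ x in Ioc (-π) π, Egr ψ (Complex.polarCoord.symm (r, x))) := by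
    intro r hr
    have hr0 : (0:ℝ) < r := hr
    have hnorm : ∀ x, ‖Complex.polarCoord.symm (r, x)‖ = r := fun x => by
      rw [Complex.norm_polarCoord_symm]; exact abs_of_pos hr0
    rcases le_or_gt r 1 with h1 | h1
    · have h2 : ∀ x, ψ (Complex.polarCoord.symm (r, x)) = 0 := fun x =>
        hsupp _ (by rw [hnorm]; exact h1)
      have h3 : ∫⁻ x in Ioc (-π) π, ENNReal.ofReal ((ψ (Complex.polarCoord.symm (r, x))) ^ 2 /
        ‖Complex.polarCoord.symm (r, x)‖ ^ 2) = 0 := by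
        simp_rw [h2]
        simp
      rw [h3, mul_zero]
      exact zero_le
    · obtain ⟨z₀, hz₀, hz₀'⟩ := hcirc r h1
      rw [indicator_of_mem (by exact h1)]
      set J := ∫⁻ x in Ioc (-π) π, Egr ψ (Complex.polarCoord.symm (r, x)) with hJ
      have h3 : ∫⁻ x in Ioc (-π) π, ENNReal.ofReal ((ψ (Complex.polarCoord.symm (r, x))) ^ 2 /
          ‖Complex.polarCoord.symm (r, x)‖ ^ 2)
          ≤ ∫⁻ x in Ioc (-π) π, ENNReal.ofReal (1 / r ^ 2) *
            (ENNReal.ofReal (2 * (κ / r) ^ 2) + ENNReal.ofReal (4 * π * r ^ 2) * J) := by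
        apply setLIntegral_mono measurable_const
        intro x hx
        rw [hnorm, div_eq_mul_one_div, mul_comm, ENNReal.ofReal_mul (by positivity)]
        gcongr
        exact circle_bound hψ hr0 hz₀ hz₀' hx
      have e0 : π - -π = 2 * π := by ring
      rw [setLIntegral_const, Real.volume_Ioc, e0] at h3
      have hpi := Real.pi_pos
      have e1 : r ^ (-3 : ℝ) = 1 / r ^ 3 := by
        rw [Real.rpow_neg hr0.le, one_div]
        norm_cast
      have e2 : r * (1 / r ^ 2) * (2 * π) * (2 * (κ / r) ^ 2) = 4 * π * κ ^ 2 * r ^ (-3 : ℝ) := by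
        rw [e1]
        field_simp
        ring
      have e3 : r * (1 / r ^ 2) * (2 * π) * (4 * π * r ^ 2) = 8 * π ^ 2 * r := by
        field_simp
        ring
      calc ENNReal.ofReal r * _ ≤ ENNReal.ofReal r * (ENNReal.ofReal (1 / r ^ 2) *
            (ENNReal.ofReal (2 * (κ / r) ^ 2) + ENNReal.ofReal (4 * π * r ^ 2) * J)
              * ENNReal.ofReal (2 * π)) := by gcongr
        _ = (ENNReal.ofReal r * ENNReal.ofReal (1 / r ^ 2) * ENNReal.ofReal (2 * π)
              * ENNReal.ofReal (2 * (κ / r) ^ 2))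
            + (ENNReal.ofReal r * ENNReal.ofReal (1 / r ^ 2) * ENNReal.ofReal (2 * π)
              * ENNReal.ofReal (4 * π * r ^ 2)) * J := by ring
        _ = ENNReal.ofReal (4 * π * κ ^ 2 * r ^ (-3 : ℝ)) + ENNReal.ofReal (8 * π ^ 2)
            * (ENNReal.ofReal r * J) := by
          rw [← ENNReal.ofReal_mul (by positivity), ← ENNReal.ofReal_mul (by positivity),
            ← ENNReal.ofReal_mul (by positivity), ← ENNReal.ofReal_mul (by positivity),
            ← mul_assoc (ENNReal.ofReal (8 * π ^ 2)), ← ENNReal.ofReal_mul (by positivity),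
            e2, e3]
  calc _ ≤ ∫⁻ r in Ioi (0:ℝ), ((Ioi (1:ℝ)).indicator
          (fun r => ENNReal.ofReal (4 * π * κ ^ 2 * r ^ (-3 : ℝ))) r
        + ENNReal.ofReal (8 * π ^ 2) * (ENNReal.ofReal r *
          ∫⁻ x in Ioc (-π) π, Egr ψ (Complex.polarCoord.symm (r, x)))) :=
        setLIntegral_mono' measurableSet_Ioi hkey
    _ = ENNReal.ofReal (2 * π * κ ^ 2 + 8 * π ^ 2 * ∫ z, gr ψ z) := by
        rw [lintegral_add_left, lintegral_const_mul' _ _ ENNReal.ofReal_ne_top, hE,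
          setLIntegral_indicator measurableSet_Ioi]
        · have e2 : Ioi (1:ℝ) ∩ Ioi 0 = Ioi 1 := by
            rw [Ioi_inter_Ioi]; norm_num
          rw [e2, hI3, ← ENNReal.ofReal_mul (by positivity),
            ← ENNReal.ofReal_add (by positivity) (by positivity)]
        · apply Measurable.indicator _ measurableSet_Ioi
          fun_prop

end Pool.Agent.R737.HO
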