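import Pool.Agent.R737.HO.Dist

open Filter Topology Set MeasureTheory

namespace Pool.Agent.R737.HO

variable {lam : ℂ → ℝ}

lemma slope_min {p : ℂ} {m ρ : ℝ} (hm : 0 ≤ m)
    (h : ∀ z, ‖z - p‖ ≤ ρ → m ≤ √(lam z)) : SlopeLE lam (fun z => m * min ‖z - p‖ ρ) := by
  intro z ε hε
  by_cases hz : ‖z - p‖ ≤ ρ
  · refine Eventually.of_forall fun w => ?_
    have h1 : |min ‖w - p‖ ρ - min ‖z - p‖ ρ| ≤ ‖w - z‖ := by
      have h2 : |min ‖w - p‖ ρ - min ‖z - p‖ ρ| ≤ |‖w - p‖ - ‖z - p‖| := by
        have := abs_min_sub_min_le_max ‖w - p‖ ρ ‖z - p‖ ρ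
        simpa using this
      refine h2.trans ?_
      have := abs_norm_sub_norm_le (w - p) (z - p)
      simpa using this
    rw [← mul_sub, abs_mul, abs_of_nonneg hm]
    have h3 := h z hz
    have h4 := norm_nonneg (w - z)
    calc m * |min ‖w - p‖ ρ - min ‖z - p‖ ρ| ≤ m * ‖w - z‖ := mul_le_mul_of_nonneg_left h1 hm
      _ ≤ (√(lam z) + ε) * ‖w - z‖ := by
          apply mul_le_mul_of_nonneg_right _ h4
          linarith
  · push Not at hz
    have h1 : ∀ᶠ w in 𝓝 z, ρ < ‖w - p‖ := by
      have hc : Continuous (fun w : ℂ => ‖w - p‖) := by fun_prop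
      exact (hc.tendsto z).eventually (lt_mem_nhds hz)
    filter_upwards [h1] with w hw
    rw [min_eq_right hw.le, min_eq_right hz.le, sub_self, abs_zero]
    positivity

/-- uniform lower bound of the distance from the points of a compact set -/
lemma exists_lower (hlam : Continuous lam) (hpos : ∀ z, 0 < lam z) {K : Set ℂ} (hK : IsCompact K) :
    ∃ m > 0, ∀ p ∈ K, ∀ q, m * min ‖q - p‖ 1 ≤ riemDist lam p q := by
  rcases K.eq_empty_or_nonempty with rfl | hne
  · exact ⟨1, one_pos, by simp⟩
  · have hK' : IsCompact (Metric.cthickening 1 K) := hK.cthickening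
    have hne' : (Metric.cthickening 1 K).Nonempty := hne.mono (Metric.self_subset_cthickening K)
    obtain ⟨x, hx, hmin⟩ := hK'.exists_isMinOn hne'
      ((Real.continuous_sqrt.comp hlam).continuousOn)
    refine ⟨√(lam x), Real.sqrt_pos.2 (hpos x), fun p hp q => ?_⟩
    have h1 : SlopeLE lam (fun z => √(lam x) * min ‖z - p‖ 1) := by
      apply slope_min (Real.sqrt_nonneg _)
      intro z hz
      apply hmin
      apply Metric.mem_cthickening_of_dist_le z p 1 K hp
      rwa [dist_eq_norm]
    have h2 := sub_le_riemDist hlam h1 p q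
    simpa using h2

/-- type synonym of `ℂ`, to carry the Riemannian distance -/
structure Cg (lam : ℂ → ℝ) : Type where
  /-- the underlying point -/
  toC : ℂ

lemma eq_of_riemDist_eq_zero (hlam : Continuous lam) (hpos : ∀ z, 0 < lam z) {p q : ℂ}
    (h : riemDist lam p q = 0) : p = q := by
  obtain ⟨m, hm, h1⟩ := exists_lower hlam hpos (isCompact_singleton (x := p))
  have h2 := h1 p rfl q
  rw [h] at h2
  have h3 : min ‖q - p‖ 1 ≤ 0 := by
    by_contra hc
    push Not at hc
    have := mul_pos hm hc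
    linarith
  have h4 : ‖q - p‖ ≤ 0 := by
    rcases min_le_iff.1 h3 with h5 | h5
    · exact h5
    · linarith
  have h5 : q - p = 0 := norm_le_zero_iff.1 h4
  exact (sub_eq_zero.1 h5).symm

/-- the metric space `(ℂ, d_g)` -/
noncomputable abbrev msp (hlam : Continuous lam) (hpos : ∀ z, 0 < lam z) : MetricSpace (Cg lam) where
  dist p q := riemDist lam p.toC q.toC
  dist_self p := riemDist_self _
  dist_comm p q := riemDist_comm _ _
  dist_triangle p q r := riemDist_triangle hlam _ _ _
  eq_of_dist_eq_zero {p q} h := by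
    have := eq_of_riemDist_eq_zero hlam hpos h
    cases p; cases q; congr

lemma slope_dist (hlam : Continuous lam) (p : ℂ) : SlopeLE lam (fun z => riemDist lam p z) := by
  intro z ε hε
  have h1 : ∀ᶠ w in 𝓝 z, √(lam w) < √(lam z) + ε :=
    ((Real.continuous_sqrt.comp hlam).tendsto z).eventually (gt_mem_nhds (by simp [hε]))
  obtain ⟨δ, hδ, h2⟩ := Metric.eventually_nhds_iff_ball.1 h1
  filter_upwards [Metric.ball_mem_nhds z hδ] with w hw
  have hseg : ∀ x ∈ segment ℝ z w, √(lam x) ≤ √(lam z) + ε := by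
    intro x hx
    apply (h2 x _).le
    exact (convex_ball z δ).segment_subset (Metric.mem_ball_self hδ) hw hx
  have h3 := riemDist_le_segment hseg hlam
  have h4 := riemDist_triangle hlam p z w
  have h5 := riemDist_triangle hlam p w z
  rw [riemDist_comm w z] at h5
  rw [abs_le]
  constructor <;> linarith

lemma continuous_dist (hlam : Continuous lam) (p : ℂ) : Continuous (fun z => riemDist lam p z) :=
  (slope_dist hlam p).continuous

section
variable (hlam : Continuous lam) (hpos : ∀ z, 0 < lam z)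
include hlam hpos

lemma continuous_toCg : letI := msp hlam hpos; Continuous (fun z : ℂ => (⟨z⟩ : Cg lam)) := by
  letI := msp hlam hpos
  rw [continuous_iff_continuousAt]
  intro z
  rw [ContinuousAt, tendsto_iff_dist_tendsto_zero]
  have h1 := (continuous_dist hlam z).tendsto z
  simp only [riemDist_self] at h1
  refine h1.congr fun w => ?_
  exact riemDist_comm z w

lemma continuous_ofCg : letI := msp hlam hpos; Continuous (fun z : Cg lam => z.toC) := by
  letI := msp hlam hpos
  rw [Metric.continuous_iff]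
  intro z ε hε
  obtain ⟨m, hm, h1⟩ := exists_lower hlam hpos (isCompact_singleton (x := z.toC))
  refine ⟨m * min ε 1, by positivity, fun w hw => ?_⟩
  have h2 : riemDist lam z.toC w.toC < m * min ε 1 := by
    have h3 : riemDist lam w.toC z.toC < m * min ε 1 := hw
    rwa [riemDist_comm]
  have h3 := (h1 z.toC rfl w.toC).trans_lt h2
  have h4 : min ‖w.toC - z.toC‖ 1 < min ε 1 := lt_of_mul_lt_mul_left h3 hm.le
  have h5 : ‖w.toC - z.toC‖ < ε := by
    rcases lt_min_iff.1 h4 with ⟨h6, h7⟩
    rcases min_lt_iff.1 h6 with h8 | h8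
    · exact h8
    · rcases min_lt_iff.1 h7 with h9 | h9
      · linarith
      · linarith
  rw [dist_eq_norm]
  exact h5

/-- the closure step of the Hopf-Rinow argument -/
lemma step_closed (hcomp : IsCompleteMetric lam) {R : ℝ}
    (h : ∀ r, 0 ≤ r → r < R → ∃ B, ∀ z, riemDist lam 0 z ≤ r → ‖z‖ ≤ B) (hR : 0 < R) :
    ∃ B, ∀ z, riemDist lam 0 z ≤ R → ‖z‖ ≤ B := by
  letI := msp hlam hpos
  haveI : CompleteSpace (Cg lam) := by
    apply Metric.complete_of_cauchySeq_tendsto
    intro u hu
    rw [Metric.cauchySeq_iff] at hu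
    obtain ⟨y, hy⟩ := hcomp (fun n => (u n).toC) hu
    exact ⟨⟨y⟩, tendsto_iff_dist_tendsto_zero.2 hy⟩
  set A : Set (Cg lam) := {z | riemDist lam 0 z.toC ≤ R} with hA
  have hAc : IsClosed A :=
    isClosed_le ((continuous_dist hlam 0).comp (continuous_ofCg hlam hpos)) continuous_const
  have htb : TotallyBounded A := by
    rw [Metric.totallyBounded_iff]
    intro ε hε
    set r : ℝ := max 0 (R - ε / 4) with hr
    have hr0 : 0 ≤ r := le_max_left _ _
    have hrR : r < R := max_lt hR (by linarith)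
    obtain ⟨B, hB⟩ := h r hr0 hrR
    have hcpt : IsCompact {z : ℂ | riemDist lam 0 z ≤ r} := by
      apply Metric.isCompact_of_isClosed_isBounded
      · exact isClosed_le (continuous_dist hlam 0) continuous_const
      · rw [isBounded_iff_forall_norm_le]
        exact ⟨B, fun x hx => hB x hx⟩
    have hcpt2 := hcpt.image (continuous_toCg hlam hpos)
    obtain ⟨t, ht, hcov⟩ := Metric.totallyBounded_iff.1 hcpt2.totallyBounded (ε / 2) (by positivity)
    refine ⟨t, ht, ?_⟩
    intro z hz
    have hz' : riemDist lam 0 z.toC ≤ R := hz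
    -- find a point of the smaller ball near `z`
    have hy : ∃ y : ℂ, riemDist lam 0 y ≤ r ∧ riemDist lam y z.toC < ε / 2 := by
      obtain ⟨γ, h1, h2, h3, h4⟩ := exists_path (lam := lam)
        (show riemDist lam 0 z.toC < R + ε / 8 by linarith)
      have hsp := speed_continuous hlam h1
      have hcont : Continuous (fun t : ℝ => ∫ s in (0:ℝ)..t, √(lam (γ s)) * ‖deriv γ s‖) := by
        rw [continuous_iff_continuousAt]
        intro x
        exact ((hsp.integral_hasStrictDerivAt 0 x).hasDerivAt).continuousAt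
      by_cases hL : pathLength lam γ ≤ r
      · refine ⟨z.toC, ?_, ?_⟩
        · have := riemDist_le (lam := lam) γ h1
          rw [h2, h3] at this
          linarith
        · rw [riemDist_self]; positivity
      · push Not at hL
        have hiv := intermediate_value_Icc (zero_le_one' ℝ) (hcont.continuousOn (s := Icc 0 1))
        have hmem : r ∈ Icc (∫ s in (0:ℝ)..0, √(lam (γ s)) * ‖deriv γ s‖)
            (∫ s in (0:ℝ)..1, √(lam (γ s)) * ‖deriv γ s‖) := by
          constructor
          · simpa using hr0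
          · exact hL.le
        obtain ⟨t0, ht0, ht0'⟩ := hiv hmem
        simp only at ht0'
        refine ⟨γ t0, ?_, ?_⟩
        · have := riemDist_le_of_piece hlam h1 ht0.1
          rw [h2, ht0'] at this
          exact this
        · have h5 := riemDist_le_of_piece hlam h1 ht0.2
          rw [h3] at h5
          have h6 := intervalIntegral.integral_add_adjacent_intervals
            (hsp.intervalIntegrable 0 t0 (μ := volume)) (hsp.intervalIntegrable t0 1 (μ := volume))
          rw [ht0'] at h6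
          have h7 : pathLength lam γ = ∫ s in (0:ℝ)..1, √(lam (γ s)) * ‖deriv γ s‖ := rfl
          have h8 : R - ε / 4 ≤ r := le_max_right _ _
          linarith
    obtain ⟨y, hy1, hy2⟩ := hy
    have hy3 : (⟨y⟩ : Cg lam) ∈ (fun z : ℂ => (⟨z⟩ : Cg lam)) '' {z : ℂ | riemDist lam 0 z ≤ r} :=
      ⟨y, hy1, rfl⟩
    have hy4 := hcov hy3
    simp only [mem_iUnion, Metric.mem_ball, exists_prop] at hy4 ⊢
    obtain ⟨x, hx, hyx⟩ := hy4
    refine ⟨x, hx, ?_⟩
    have hyx' : riemDist lam y x.toC < ε / 2 := hyx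
    have h9 := riemDist_triangle hlam z.toC y x.toC
    rw [riemDist_comm z.toC y] at h9
    show riemDist lam z.toC x.toC < ε
    linarith
  have hcptA : IsCompact A := isCompact_iff_totallyBounded_isComplete.2 ⟨htb, hAc.isComplete⟩
  have h10 := (hcptA.image (continuous_ofCg hlam hpos)).isBounded
  obtain ⟨B, hB⟩ := h10.exists_norm_le
  exact ⟨B, fun z hz => hB z ⟨⟨z⟩, hz, rfl⟩⟩

/-- the openness step -/
lemma step_open {R : ℝ} (h : ∃ B, ∀ z, riemDist lam 0 z ≤ R → ‖z‖ ≤ B) (hR : 0 ≤ R) :
    ∃ δ > 0, ∃ B, ∀ z, riemDist lam 0 z ≤ R + δ → ‖z‖ ≤ B := by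
  obtain ⟨B, hB⟩ := h
  obtain ⟨m, hm, h1⟩ := exists_lower hlam hpos (isCompact_closedBall (0 : ℂ) B)
  refine ⟨m / 4, by positivity, B + 1, fun z hz => ?_⟩
  obtain ⟨γ, g1, g2, g3, g4⟩ := exists_path (lam := lam)
    (show riemDist lam 0 z < R + m / 2 by linarith)
  have hsp := speed_continuous hlam g1
  by_cases hL : pathLength lam γ ≤ R
  · have := riemDist_le (lam := lam) γ g1
    rw [g2, g3] at this
    have := hB z (this.trans hL)
    linarith
  · push Not at hL
    have hcont : Continuous (fun t : ℝ => ∫ s in (0:ℝ)..t, √(lam (γ s)) * ‖deriv γ s‖) := by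
      rw [continuous_iff_continuousAt]
      intro x
      exact ((hsp.integral_hasStrictDerivAt 0 x).hasDerivAt).continuousAt
    have hiv := intermediate_value_Icc (zero_le_one' ℝ) (hcont.continuousOn (s := Icc 0 1))
    have hmem : R ∈ Icc (∫ s in (0:ℝ)..0, √(lam (γ s)) * ‖deriv γ s‖)
        (∫ s in (0:ℝ)..1, √(lam (γ s)) * ‖deriv γ s‖) := by
      constructor
      · simpa using hR
      · exact hL.le
    obtain ⟨t0, ht0, ht0'⟩ := hiv hmem
    simp only at ht0'
    have h2 := riemDist_le_of_piece hlam g1 ht0.1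
    rw [g2, ht0'] at h2
    have h3 := hB _ h2
    have h5 := riemDist_le_of_piece hlam g1 ht0.2
    rw [g3] at h5
    have h6 := intervalIntegral.integral_add_adjacent_intervals
      (hsp.intervalIntegrable 0 t0 (μ := volume)) (hsp.intervalIntegrable t0 1 (μ := volume))
    rw [ht0'] at h6
    have h7 : pathLength lam γ = ∫ s in (0:ℝ)..1, √(lam (γ s)) * ‖deriv γ s‖ := rfl
    have h8 := h1 (γ t0) (by simpa using h3) z
    have h9 : m * min ‖z - γ t0‖ 1 < m * 1 := by linarith
    have h10 : min ‖z - γ t0‖ 1 < 1 := lt_of_mul_lt_mul_left h9 hm.le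
    have h11 : ‖z - γ t0‖ < 1 := by
      rcases min_lt_iff.1 h10 with h | h
      · exact h
      · exact absurd h (lt_irrefl _)
    have h12 : ‖z‖ ≤ ‖z - γ t0‖ + ‖γ t0‖ := by
      have := norm_add_le (z - γ t0) (γ t0)
      simpa using this
    linarith

/-- **Hopf-Rinow**: in a complete metric the balls are bounded. -/
theorem bounded_balls (hcomp : IsCompleteMetric lam) (R : ℝ) :
    ∃ B, ∀ z, riemDist lam 0 z ≤ R → ‖z‖ ≤ B := by
  by_contra hcon
  have hR0 : 0 ≤ R := by
    by_contra hR
    push Not at hR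
    exact hcon ⟨0, fun z hz => absurd (riemDist_nonneg 0 z) (by linarith)⟩
  set P : ℝ → Prop := fun r => ∃ B, ∀ z, riemDist lam 0 z ≤ r → ‖z‖ ≤ B with hP
  have hmono : ∀ r s, r ≤ s → P s → P r := by
    rintro r s hrs ⟨B, hB⟩
    exact ⟨B, fun z hz => hB z (hz.trans hrs)⟩
  have hP0 : P 0 := by
    refine ⟨0, fun z hz => ?_⟩
    have : riemDist lam 0 z = 0 := le_antisymm hz (riemDist_nonneg _ _)
    have := eq_of_riemDist_eq_zero hlam hpos this
    rw [← this]; simp
  set T : Set ℝ := {r | 0 ≤ r ∧ r ≤ R ∧ P r} with hT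
  have hTne : T.Nonempty := ⟨0, le_rfl, hR0, hP0⟩
  have hTb : BddAbove T := ⟨R, fun r hr => hr.2.1⟩
  set s := sSup T with hs
  have hs0 : 0 ≤ s := le_csSup hTb ⟨le_rfl, hR0, hP0⟩
  have hsR : s ≤ R := csSup_le hTne fun r hr => hr.2.1
  have hlt : ∀ r, 0 ≤ r → r < s → P r := by
    intro r _ hr
    obtain ⟨t, ht, htr⟩ := exists_lt_of_lt_csSup hTne hr
    exact hmono r t htr.le ht.2.2
  have hPs : P s := by
    rcases hs0.eq_or_lt with h | h
    · rw [← h]; exact hP0
    · exact step_closed hlam hpos hcomp hlt h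
  obtain ⟨δ, hδ, hPδ⟩ := step_open hlam hpos hPs hs0
  have h1 : s + δ ≤ R := by
    by_contra h
    push Not at h
    exact hcon (hmono R (s + δ) h.le hPδ)
  have h2 : s + δ ∈ T := ⟨by linarith, h1, hPδ⟩
  have h3 := le_csSup hTb h2
  linarith

end

end Pool.Agent.R737.HO
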