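import Pool.Agent.R737.HO.Lap

open Filter Topology Set MeasureTheory Laplacian InnerProductSpace
open scoped ContDiff

namespace Pool.Agent.R737.HO

lemma hasDerivAt_line {f : ℂ → ℝ} {z v : ℂ} {t : ℝ} (hf : DifferentiableAt ℝ f (z + t * v)) :
    HasDerivAt (fun s : ℝ => f (z + s * v)) (pd v f (z + t * v)) t := by
  have h1 : HasDerivAt (fun s : ℝ => z + (s : ℂ) * v) v t := by
    have h2 : HasDerivAt (fun s : ℝ => (s : ℂ)) 1 t := Complex.ofRealCLM.hasDerivAt
    have h3 := (h2.mul_const v).const_add z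
    simpa using h3
  exact hf.hasFDerivAt.comp_hasDerivAt t h1

lemma second_deriv_nonpos {f : ℂ → ℝ} (hf : ContDiff ℝ ∞ f) {z : ℂ} (v : ℂ)
    (h : IsLocalMax f z) : pd v (pd v f) z ≤ 0 := by
  by_contra hc
  push Not at hc
  set g : ℝ → ℝ := fun t => f (z + t * v) with hgdef
  have hg1 : ∀ t : ℝ, HasDerivAt g (pd v f (z + t * v)) t := fun t =>
    hasDerivAt_line (hf.differentiable (by simp) _)
  have hg2 : ∀ t : ℝ, HasDerivAt (fun s : ℝ => pd v f (z + s * v)) (pd v (pd v f) (z + t * v)) t :=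
    fun t => hasDerivAt_line ((contDiff_pd hf v).differentiable (by simp) _)
  have hd : deriv g = fun t : ℝ => pd v f (z + t * v) := by
    funext t; exact (hg1 t).deriv
  have hcont : Continuous (fun t : ℝ => z + (t : ℂ) * v) := by fun_prop
  have hmax : IsLocalMax g 0 := by
    have h0 : Tendsto (fun t : ℝ => z + (t : ℂ) * v) (𝓝 0) (𝓝 z) := by
      have := hcont.tendsto 0
      simpa using this
    have h1 := h0.eventually h
    filter_upwards [h1] with t ht
    simpa [hgdef] using ht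
  have hd0 : deriv g 0 = 0 := hmax.deriv_eq_zero
  have hdd : deriv (deriv g) 0 = pd v (pd v f) z := by
    rw [hd, (hg2 0).deriv]
    simp
  have hmin : IsLocalMin g 0 :=
    isLocalMin_of_deriv_deriv_pos (by rw [hdd]; exact hc) hd0 (hg1 0).continuousAt
  have hconst : g =ᶠ[𝓝 0] fun _ => g 0 := by
    filter_upwards [hmin, hmax] with t h1 h2
    exact le_antisymm h2 h1
  have h5 : deriv g =ᶠ[𝓝 0] deriv (fun _ => g 0) := hconst.deriv
  have h6 := h5.deriv_eq
  rw [hdd] at h6
  simp at h6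
  linarith

lemma lap_normSq (z : ℂ) : Δ (fun w : ℂ => ‖w‖ ^ 2) z = 4 := by
  have hpd : ∀ v : ℂ, pd v (fun w : ℂ => ‖w‖ ^ 2) = fun w => 2 * (w.re * v.re + w.im * v.im) := by
    intro v
    funext w
    unfold pd
    have h1 : HasFDerivAt (fun w : ℂ => ‖w‖ ^ 2) (2 • innerSL ℝ w) w := by
      have := (hasStrictFDerivAt_norm_sq w).hasFDerivAt
      exact this
    rw [h1.fderiv]
    simp [Complex.inner]
    ring
  rw [lap_eq (contDiff_norm_sq ℝ), hpd, hpd]
  have h2 : ∀ v u : ℂ, pd u (fun w : ℂ => 2 * (w.re * v.re + w.im * v.im)) z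
      = 2 * (u.re * v.re + u.im * v.im) := by
    intro v u
    unfold pd
    have h1 : HasFDerivAt (fun w : ℂ => 2 * (w.re * v.re + w.im * v.im))
        ((2:ℝ) • (v.re • Complex.reCLM + v.im • Complex.imCLM)) z := by
      have := ((Complex.reCLM.hasFDerivAt (x := z)).mul_const v.re).add
        ((Complex.imCLM.hasFDerivAt (x := z)).mul_const v.im)
      exact this.const_mul 2
    rw [h1.fderiv]
    simp
    ring
  rw [h2, h2]
  norm_num

/-- weak maximum principle: a smooth function with nonnegative Laplacian is at least `f 0`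
somewhere on each circle centred at `0` -/
lemma exists_circle_ge {f : ℂ → ℝ} (hf : ContDiff ℝ ∞ f) (hΔ : ∀ z, 0 ≤ Δ f z) {r : ℝ}
    (hr : 0 < r) : ∃ z : ℂ, ‖z‖ = r ∧ f 0 ≤ f z := by
  have hS : IsCompact (Metric.sphere (0:ℂ) r) := isCompact_sphere 0 r
  obtain ⟨x, hx, hmax⟩ := hS.exists_isMaxOn (NormedSpace.sphere_nonempty.2 hr.le)
    hf.continuous.continuousOn
  refine ⟨x, by simpa using hx, ?_⟩
  apply le_of_forall_pos_le_add
  intro ε hε
  set δ := ε / r ^ 2 with hδ
  have hδ0 : 0 < δ := by positivity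
  set F : ℂ → ℝ := fun z => f z + δ * ‖z‖ ^ 2 with hF
  have hFs : ContDiff ℝ ∞ F := hf.add (contDiff_const.mul (contDiff_norm_sq ℝ))
  have hFΔ : ∀ z, 0 < Δ F z := by
    intro z
    have h1 : Δ F z = Δ f z + δ * 4 := by
      have h2 : F = f + δ • (fun w : ℂ => ‖w‖ ^ 2) := by
        funext w; simp [hF]
      have h3 : ContDiffAt ℝ 2 (fun w : ℂ => ‖w‖ ^ 2) z := (contDiff_norm_sq ℝ).contDiffAt
      have h4 : ContDiffAt ℝ 2 (δ • (fun w : ℂ => ‖w‖ ^ 2)) z := contDiffAt_const.smul h3
      rw [h2, ContDiffAt.laplacian_add ((hf.of_le (by norm_cast)).contDiffAt) h4,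
        laplacian_smul _ h3, lap_normSq]
      rfl
    rw [h1]
    have := hΔ z
    linarith
  have hB : IsCompact (Metric.closedBall (0:ℂ) r) := isCompact_closedBall 0 r
  obtain ⟨y, hy, hymax⟩ := hB.exists_isMaxOn (Metric.nonempty_closedBall.2 hr.le)
    hFs.continuous.continuousOn
  have hy' : ‖y‖ ≤ r := by simpa using hy
  have h0 : F 0 ≤ F y := hymax (by simp [hr.le])
  rcases eq_or_lt_of_le hy' with h1 | h1
  · have h2 : f y ≤ f x := hmax (by simpa using h1)
    have h3 : F 0 = f 0 := by simp [hF]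
    have h4 : F y = f y + ε := by
      simp only [hF]
      rw [h1, hδ]
      field_simp
    rw [h3, h4] at h0
    linarith
  · exfalso
    have hloc : IsLocalMax F y := by
      apply hymax.isLocalMax
      have h5 : Metric.ball (0:ℂ) r ∈ 𝓝 y :=
        Metric.isOpen_ball.mem_nhds (by simpa using h1)
      exact mem_of_superset h5 Metric.ball_subset_closedBall
    have h2 := second_deriv_nonpos hFs 1 hloc
    have h3 := second_deriv_nonpos hFs Complex.I hloc
    have h4 := hFΔ y
    rw [lap_eq hFs] at h4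
    linarith

end Pool.Agent.R737.HO
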