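import Pool.Agent.R737.HO.Energy
import Pool.Agent.R737.HO.MaxPrinciple

open Filter Topology Set MeasureTheory Laplacian InnerProductSpace
open scoped ContDiff NNReal

namespace Pool.Agent.R737.HO

/-- the paraboloid cap `max 0 (1 - ‖ξ‖²)` -/
noncomputable def cap (ξ : ℂ) : ℝ := max 0 (1 - ‖ξ‖ ^ 2)

lemma pd_normSq (v z : ℂ) : pd v (fun w : ℂ => ‖w‖ ^ 2) z = 2 * (z.re * v.re + z.im * v.im) := by
  unfold pd
  have h1 : HasFDerivAt (fun w : ℂ => ‖w‖ ^ 2) (2 • innerSL ℝ z) z := by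
    have := (hasStrictFDerivAt_norm_sq z).hasFDerivAt
    exact this
  rw [h1.fderiv]
  simp [Complex.inner]
  ring

lemma cap_nonneg (ξ : ℂ) : 0 ≤ cap ξ := le_max_left _ _

lemma cap_le_one (ξ : ℂ) : cap ξ ≤ 1 := by
  unfold cap
  exact max_le zero_le_one (by nlinarith [sq_nonneg ‖ξ‖])

lemma cap_eq_zero {ξ : ℂ} (h : 1 ≤ ‖ξ‖) : cap ξ = 0 := by
  unfold cap
  exact max_eq_left (by nlinarith)

lemma lc_cap : LC cap := by
  constructor
  · refine lipschitz_of_abs (C := 2) (by norm_num) fun z w => ?_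
    have h1 : ∀ x y : ℝ, 0 ≤ x → 0 ≤ y → |max 0 (1 - x ^ 2) - max 0 (1 - y ^ 2)| ≤ 2 * |x - y| := by
      intro x y hx hy
      have h2 : ∀ x : ℝ, 0 ≤ x → max 0 (1 - x ^ 2) = 1 - (min x 1) ^ 2 := by
        intro x hx
        rcases le_total x 1 with h | h
        · rw [min_eq_left h, max_eq_right]; nlinarith
        · rw [min_eq_right h, max_eq_left]; norm_num; nlinarith
      rw [h2 x hx, h2 y hy]
      have h3 : (1 - (min x 1) ^ 2) - (1 - (min y 1) ^ 2)
          = -((min x 1 - min y 1) * (min x 1 + min y 1)) := by ring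
      rw [h3, abs_neg, abs_mul]
      have h4 : |min x 1 - min y 1| ≤ |x - y| := by
        have := abs_min_sub_min_le_max x 1 y 1
        simpa using this
      have h5 : |min x 1 + min y 1| ≤ 2 := by
        rw [abs_of_nonneg (by positivity)]
        linarith [min_le_right x 1, min_le_right y 1]
      calc |min x 1 - min y 1| * |min x 1 + min y 1| ≤ |x - y| * 2 := by gcongr
        _ = 2 * |x - y| := by ring
    unfold cap
    refine (h1 _ _ (norm_nonneg _) (norm_nonneg _)).trans ?_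
    have := abs_norm_sub_norm_le z w
    linarith
  · apply HasCompactSupport.intro (isCompact_closedBall (0:ℂ) 1)
    intro x hx
    apply cap_eq_zero
    have : 1 < ‖x‖ := by simpa using hx
    exact this.le

lemma pd_cap_of_lt {ξ : ℂ} (h : ‖ξ‖ < 1) (v : ℂ) :
    DifferentiableAt ℝ cap ξ ∧ pd v cap ξ = -2 * (ξ.re * v.re + ξ.im * v.im) := by
  have h0 : cap =ᶠ[𝓝 ξ] fun w => 1 - ‖w‖ ^ 2 := by
    have : ∀ᶠ w in 𝓝 ξ, ‖w‖ < 1 := (continuous_norm.tendsto ξ).eventually (gt_mem_nhds h)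
    filter_upwards [this] with w hw
    unfold cap
    exact max_eq_right (by nlinarith [norm_nonneg w])
  have h1 : DifferentiableAt ℝ (fun w : ℂ => ‖w‖ ^ 2) ξ :=
    (contDiff_norm_sq ℝ (n := 1)).differentiable (by norm_num) ξ
  have h2 : DifferentiableAt ℝ (fun w : ℂ => 1 - ‖w‖ ^ 2) ξ := h1.const_sub 1
  refine ⟨h2.congr_of_eventuallyEq h0, ?_⟩
  have h3 := pd_normSq v ξ
  unfold pd at h3 ⊢
  rw [h0.fderiv_eq, fderiv_const_sub]
  simp only [neg_apply]
  rw [h3]
  ring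

lemma pd_cap_of_gt {ξ : ℂ} (h : 1 < ‖ξ‖) (v : ℂ) :
    DifferentiableAt ℝ cap ξ ∧ pd v cap ξ = 0 := by
  have h0 : cap =ᶠ[𝓝 ξ] fun _ => 0 := by
    have : ∀ᶠ w in 𝓝 ξ, 1 < ‖w‖ := (continuous_norm.tendsto ξ).eventually (lt_mem_nhds h)
    filter_upwards [this] with w hw
    exact cap_eq_zero hw.le
  refine ⟨(differentiableAt_const 0).congr_of_eventuallyEq h0, ?_⟩
  unfold pd
  rw [h0.fderiv_eq]
  simp

lemma ae_norm_ne_one : ∀ᵐ ξ : ℂ, ‖ξ‖ ≠ 1 := by
  have h := Measure.addHaar_sphere (μ := (volume : Measure ℂ)) (0:ℂ) 1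
  rw [ae_iff]
  convert h using 2
  ext ξ
  simp

lemma pd_comp_affine {f : ℂ → ℝ} {p ξ v : ℂ} {t : ℝ} (hf : DifferentiableAt ℝ f (p + t * ξ)) :
    DifferentiableAt ℝ (fun ζ : ℂ => f (p + t * ζ)) ξ ∧
    pd v (fun ζ : ℂ => f (p + t * ζ)) ξ = t * pd v f (p + t * ξ) := by
  have h1 : HasFDerivAt (fun ζ : ℂ => p + (t:ℂ) * ζ) (t • ContinuousLinearMap.id ℝ ℂ) ξ := by
    have h2 := ((ContinuousLinearMap.id ℝ ℂ).hasFDerivAt (x := ξ)).const_smul t
    have h3 := h2.const_add p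
    have h4 : (fun ζ : ℂ => p + (t:ℂ) * ζ) = fun ζ => p + (t • ⇑(ContinuousLinearMap.id ℝ ℂ)) ζ := by
      funext ζ
      simp
    rw [h4]
    exact h3
  have h2 := hf.hasFDerivAt.comp ξ h1
  refine ⟨h2.differentiableAt, ?_⟩
  unfold pd
  have h3 : fderiv ℝ (fun ζ : ℂ => f (p + t * ζ)) ξ
      = (fderiv ℝ f (p + t * ξ)).comp (t • ContinuousLinearMap.id ℝ ℂ) := h2.fderiv
  rw [h3]
  simp

lemma contDiff_comp_affine {f : ℂ → ℝ} (hf : ContDiff ℝ ∞ f) (p : ℂ) (t : ℝ) :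
    ContDiff ℝ ∞ (fun ζ : ℂ => f (p + t * ζ)) :=
  hf.comp (contDiff_const.add (contDiff_const.mul contDiff_id))

lemma fderiv_apply_eq (f : ℂ → ℝ) (z v : ℂ) :
    fderiv ℝ f z v = v.re * pd 1 f z + v.im * pd Complex.I f z := by
  have : v = v.re • (1:ℂ) + v.im • Complex.I := by
    simp [Complex.re_add_im]
  conv_lhs => rw [this, map_add, map_smul, map_smul]
  rfl

lemma volume_real_ball : volume.real (Metric.ball (0:ℂ) 1) = Real.pi := by
  unfold Measure.real
  rw [Complex.volume_ball]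
  simp

/-- the radial derivative term is bounded below -/
lemma radial_ge {f : ℂ → ℝ} (hf : ContDiff ℝ ∞ f) {p : ℂ} {t κ : ℝ} (ht : 0 ≤ t) (hκ : 0 ≤ κ)
    (h : ∀ z, ‖z - p‖ ≤ t → -κ ≤ Δ f z) :
    -(t * κ * Real.pi / 2) ≤ ∫ ξ in Metric.ball (0:ℂ) 1, fderiv ℝ f (p + t * ξ) ξ := by
  have hg : ∀ v, ContDiff ℝ ∞ (fun ζ : ℂ => pd v f (p + t * ζ)) := fun v =>
    contDiff_comp_affine (contDiff_pd hf v) p t
  have hH : ∀ v, LC (fun ζ : ℂ => cap ζ * pd v f (p + t * ζ)) := fun v =>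
    lc_cap.mul_contDiff ((hg v).of_le (by norm_cast))
  have h1 := (hH 1).integral_pd 1
  have h2 := (hH Complex.I).integral_pd Complex.I
  have i1 := (hH 1).integrable_pd 1
  have i2 := (hH Complex.I).integrable_pd Complex.I
  have hcont : Continuous (fun ξ : ℂ => fderiv ℝ f (p + t * ξ) ξ) := by
    have : Continuous (fderiv ℝ f) := hf.continuous_fderiv (by simp)
    exact (this.comp (by fun_prop : Continuous fun ξ : ℂ => p + t * ξ)).clm_apply continuous_id
  have hint : IntegrableOn (fun ξ : ℂ => fderiv ℝ f (p + t * ξ) ξ) (Metric.ball (0:ℂ) 1) :=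
    (hcont.continuousOn.integrableOn_compact (isCompact_closedBall 0 1)).mono_set
      Metric.ball_subset_closedBall
  have hint2 : IntegrableOn (fun ξ : ℂ => t * κ + 2 * fderiv ℝ f (p + t * ξ) ξ)
      (Metric.ball (0:ℂ) 1) := by
    apply Integrable.add
    · exact integrableOn_const (by rw [Complex.volume_ball]; simp)
    · exact hint.const_mul 2
  have h3 : ∫ ξ : ℂ, (pd 1 (fun ζ : ℂ => cap ζ * pd 1 f (p + t * ζ)) ξ
      + pd Complex.I (fun ζ : ℂ => cap ζ * pd Complex.I f (p + t * ζ)) ξ) = 0 := by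
    rw [integral_add i1 i2, h1, h2, add_zero]
  have h4 : -∫ ξ in Metric.ball (0:ℂ) 1, (t * κ + 2 * fderiv ℝ f (p + t * ξ) ξ)
      ≤ ∫ ξ : ℂ, (pd 1 (fun ζ : ℂ => cap ζ * pd 1 f (p + t * ζ)) ξ
      + pd Complex.I (fun ζ : ℂ => cap ζ * pd Complex.I f (p + t * ζ)) ξ) := by
    rw [← integral_indicator measurableSet_ball, ← integral_neg]
    have hint3 : Integrable ((Metric.ball (0:ℂ) 1).indicator
        (fun ξ : ℂ => t * κ + 2 * fderiv ℝ f (p + t * ξ) ξ)) :=
      hint2.integrable_indicator measurableSet_ball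
    apply integral_mono_ae hint3.neg (i1.add i2)
    filter_upwards [ae_norm_ne_one] with ξ hξ
    have hd : ∀ v, DifferentiableAt ℝ (fun ζ : ℂ => pd v f (p + t * ζ)) ξ := fun v =>
      (hg v).differentiable (by simp) ξ
    have hpp : ∀ v, pd v (fun ζ : ℂ => pd v f (p + t * ζ)) ξ = t * pd v (pd v f) (p + t * ξ) :=
      fun v => (pd_comp_affine ((contDiff_pd hf v).differentiable (by simp) _)).2
    simp only [Pi.neg_apply, Pi.add_apply]
    rcases lt_or_gt_of_ne hξ with h5 | h5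
    · have h6 : ξ ∈ Metric.ball (0:ℂ) 1 := by simpa using h5
      rw [indicator_of_mem h6]
      rw [pd_mul (pd_cap_of_lt h5 1).1 (hd 1), pd_mul (pd_cap_of_lt h5 1).1 (hd _),
        (pd_cap_of_lt h5 1).2, (pd_cap_of_lt h5 Complex.I).2, hpp, hpp, fderiv_apply_eq]
      have h7 : ‖(p + t * ξ) - p‖ ≤ t := by
        rw [add_sub_cancel_left, norm_mul, Complex.norm_real, Real.norm_of_nonneg ht]
        nlinarith
      have h8 := h _ h7
      rw [lap_eq hf] at h8
      have h9 := cap_nonneg ξ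
      have h10 := cap_le_one ξ
      simp only [Complex.one_re, Complex.one_im, Complex.I_re, Complex.I_im]
      have h11 : -(t * κ) ≤ cap ξ * t * (pd 1 (pd 1 f) (p + t * ξ)
          + pd Complex.I (pd Complex.I f) (p + t * ξ)) := by
        have h12 : cap ξ * t * (-κ) ≤ cap ξ * t * (pd 1 (pd 1 f) (p + t * ξ)
          + pd Complex.I (pd Complex.I f) (p + t * ξ)) := by gcongr
        have h13 : cap ξ * (t * κ) ≤ 1 * (t * κ) := by gcongr
        linarith
      linarith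
    · have h6 : ξ ∉ Metric.ball (0:ℂ) 1 := by simpa using h5.le
      rw [indicator_of_notMem h6]
      rw [pd_mul (pd_cap_of_gt h5 1).1 (hd 1), pd_mul (pd_cap_of_gt h5 1).1 (hd _),
        (pd_cap_of_gt h5 1).2, (pd_cap_of_gt h5 Complex.I).2, cap_eq_zero h5.le]
      simp
  rw [h3] at h4
  have hic : Integrable (fun _ : ℂ => t * κ) (volume.restrict (Metric.ball (0:ℂ) 1)) :=
    integrableOn_const (by rw [Complex.volume_ball]; simp)
  have e1 : ∫ ξ in Metric.ball (0:ℂ) 1, 2 * fderiv ℝ f (p + t * ξ) ξ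
      = 2 * ∫ ξ in Metric.ball (0:ℂ) 1, fderiv ℝ f (p + t * ξ) ξ := integral_const_mul _ _
  rw [integral_add hic (hint.const_mul 2), e1] at h4
  simp only [integral_const, MeasurableSet.univ, measureReal_restrict_apply, univ_inter,
    volume_real_ball, smul_eq_mul] at h4
  linarith

/-- sub-mean-value inequality for smooth functions whose Laplacian is bounded below -/
lemma mean_value {f : ℂ → ℝ} (hf : ContDiff ℝ ∞ f) {p : ℂ} {ρ κ : ℝ} (hρ : 0 < ρ) (hκ : 0 ≤ κ)
    (h : ∀ z, ‖z - p‖ ≤ ρ → -κ ≤ Δ f z) :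
    Real.pi * f p ≤ (∫ ξ in Metric.ball (0:ℂ) 1, f (p + ρ * ξ)) + κ * ρ ^ 2 * Real.pi / 4 := by
  have hcf : Continuous (fderiv ℝ f) := hf.continuous_fderiv (by simp)
  have h1 : ∀ ξ : ℂ, f (p + ρ * ξ) - f p = ∫ t in (0:ℝ)..ρ, fderiv ℝ f (p + t * ξ) ξ := by
    intro ξ
    have h2 : ∀ t ∈ uIcc 0 ρ, HasDerivAt (fun s : ℝ => f (p + s * ξ))
        (fderiv ℝ f (p + t * ξ) ξ) t := fun t _ =>
      hasDerivAt_line (hf.differentiable (by simp) _)
    have h3 : Continuous (fun t : ℝ => fderiv ℝ f (p + t * ξ) ξ) :=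
      (hcf.comp (by fun_prop : Continuous fun t : ℝ => p + t * ξ)).clm_apply continuous_const
    rw [intervalIntegral.integral_eq_sub_of_hasDerivAt h2 (h3.intervalIntegrable _ _)]
    simp
  have hcont2 : Continuous (fun q : ℝ × ℂ => fderiv ℝ f (p + q.1 * q.2) q.2) :=
    (hcf.comp (by fun_prop : Continuous fun q : ℝ × ℂ => p + q.1 * q.2)).clm_apply continuous_snd
  have h4 : ∫ ξ in Metric.ball (0:ℂ) 1, (∫ t in (0:ℝ)..ρ, fderiv ℝ f (p + t * ξ) ξ)
      = ∫ t in (0:ℝ)..ρ, (∫ ξ in Metric.ball (0:ℂ) 1, fderiv ℝ f (p + t * ξ) ξ) := by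
    rw [← intervalIntegral_integral_swap]
    rw [Measure.prod_restrict, uIoc_of_le hρ.le]
    have h5 : IntegrableOn (fun q : ℝ × ℂ => fderiv ℝ f (p + q.1 * q.2) q.2)
        (Icc 0 ρ ×ˢ Metric.closedBall (0:ℂ) 1) (volume.prod volume) :=
      hcont2.continuousOn.integrableOn_compact (isCompact_Icc.prod (isCompact_closedBall 0 1))
    exact h5.mono_set (prod_mono Ioc_subset_Icc_self Metric.ball_subset_closedBall)
  have h6 : ∫ ξ in Metric.ball (0:ℂ) 1, (f (p + ρ * ξ) - f p)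
      = ∫ t in (0:ℝ)..ρ, (∫ ξ in Metric.ball (0:ℂ) 1, fderiv ℝ f (p + t * ξ) ξ) := by
    rw [← h4]
    simp_rw [h1]
  have hcI : Continuous (fun t : ℝ => ∫ ξ in Metric.ball (0:ℂ) 1, fderiv ℝ f (p + t * ξ) ξ) := by
    have h7 : ∀ t : ℝ, ∫ ξ in Metric.ball (0:ℂ) 1, fderiv ℝ f (p + t * ξ) ξ
        = ∫ ξ in Metric.closedBall (0:ℂ) 1, fderiv ℝ f (p + t * ξ) ξ := by
      intro t
      apply setIntegral_congr_set
      refine (Metric.ball_subset_closedBall.eventuallyLE).antisymm ?_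
      filter_upwards [ae_norm_ne_one] with ξ hξ h10
      have h11 : ‖ξ‖ ≤ 1 := by
        have : ξ ∈ Metric.closedBall (0:ℂ) 1 := h10
        simpa using this
      have : ξ ∈ Metric.ball (0:ℂ) 1 := by
        simpa using lt_of_le_of_ne h11 hξ
      exact this
    simp_rw [h7]
    exact continuous_parametric_integral_of_continuous
      (by exact hcont2) (isCompact_closedBall (0:ℂ) 1)
  have h8 : -(κ * ρ ^ 2 * Real.pi / 4)
      ≤ ∫ t in (0:ℝ)..ρ, (∫ ξ in Metric.ball (0:ℂ) 1, fderiv ℝ f (p + t * ξ) ξ) := by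
    have h9 : ∫ t in (0:ℝ)..ρ, -(t * κ * Real.pi / 2) = -(κ * ρ ^ 2 * Real.pi / 4) := by
      have : ∀ t : ℝ, -(t * κ * Real.pi / 2) = (-(κ * Real.pi / 2)) * t := fun t => by ring
      simp_rw [this]
      rw [intervalIntegral.integral_const_mul, integral_id]
      ring
    rw [← h9]
    apply intervalIntegral.integral_mono_on hρ.le
    · exact Continuous.intervalIntegrable (by fun_prop) _ _
    · exact hcI.intervalIntegrable _ _
    · intro t ht
      exact radial_ge hf ht.1 hκ (fun z hz => h z (hz.trans ht.2))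
  have hcontf : Continuous (fun ξ : ℂ => f (p + ρ * ξ)) :=
    hf.continuous.comp (by fun_prop)
  have hic : Integrable (fun _ : ℂ => f p) (volume.restrict (Metric.ball (0:ℂ) 1)) :=
    integrableOn_const (by rw [Complex.volume_ball]; simp)
  rw [integral_sub ((hcontf.continuousOn.integrableOn_compact (isCompact_closedBall 0 1)).mono_set
      Metric.ball_subset_closedBall) hic] at h6
  simp only [integral_const, MeasurableSet.univ, measureReal_restrict_apply, univ_inter,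
    volume_real_ball, smul_eq_mul] at h6
  linarith

end Pool.Agent.R737.HO
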