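import Pool.Agent.R737.HO.Circle
import Pool.Agent.R737.HO.MeanValue

open Filter Topology Set MeasureTheory Laplacian InnerProductSpace
open scoped ContDiff NNReal ENNReal Real

namespace Pool.Agent.R737.HO

lemma contDiffAt_logNorm {z : ℂ} (hz : z ≠ 0) : ContDiffAt ℝ ∞ (fun w : ℂ => Real.log ‖w‖) z :=
  (contDiffAt_norm ℝ hz).log (norm_ne_zero_iff.2 hz)

lemma pd_logNorm {z : ℂ} (hz : z ≠ 0) (v : ℂ) :
    pd v (fun w : ℂ => Real.log ‖w‖) z = (z.re * v.re + z.im * v.im) / ‖z‖ ^ 2 := by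
  have h1 : HasFDerivAt (fun w : ℂ => ‖w‖ ^ 2) (fderiv ℝ (fun w : ℂ => ‖w‖ ^ 2) z) z :=
    ((contDiff_norm_sq ℝ (n := 1)).differentiable (by norm_num) z).hasFDerivAt
  have h2 : ‖z‖ ^ 2 ≠ 0 := pow_ne_zero _ (norm_ne_zero_iff.2 hz)
  have h3 := (h1.log h2).const_mul (1 / 2 : ℝ)
  have h4 : (fun w : ℂ => Real.log ‖w‖) = fun w => 1 / 2 * Real.log (‖w‖ ^ 2) := by
    funext w
    rw [Real.log_pow]
    push_cast
    ring
  rw [h4]
  unfold pd
  rw [h3.fderiv]
  have h5 := pd_normSq v z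
  unfold pd at h5
  simp only [smul_apply, smul_eq_mul, h5]
  field_simp

lemma gr_logNorm {z : ℂ} (hz : z ≠ 0) : gr (fun w : ℂ => Real.log ‖w‖) z = 1 / ‖z‖ ^ 2 := by
  unfold gr
  rw [pd_logNorm hz, pd_logNorm hz]
  have h1 : ‖z‖ ^ 2 = z.re ^ 2 + z.im ^ 2 := by
    rw [← Complex.normSq_eq_norm_sq, Complex.normSq_apply]
    ring
  have h2 : ‖z‖ ^ 2 ≠ 0 := pow_ne_zero _ (norm_ne_zero_iff.2 hz)
  simp only [Complex.one_re, Complex.one_im, Complex.I_re, Complex.I_im, mul_one, mul_zero,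
    add_zero, zero_add, div_pow]
  rw [← add_div, ← h1]
  field_simp

/-- the one-variable weight -/
noncomputable def wt (β s₀ s : ℝ) : ℝ := Real.smoothTransition s / (1 + β ^ 2 * (s - s₀) ^ 2)

lemma one_add_pos (β s₀ s : ℝ) : 0 < 1 + β ^ 2 * (s - s₀) ^ 2 := by positivity

lemma contDiff_wt (β s₀ : ℝ) : ContDiff ℝ ∞ (wt β s₀) := by
  unfold wt
  apply ContDiff.div Real.smoothTransition.contDiff
  · fun_prop
  · intro x
    exact (one_add_pos β s₀ x).ne'

lemma wt_nonneg (β s₀ s : ℝ) : 0 ≤ wt β s₀ s :=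
  div_nonneg (Real.smoothTransition.nonneg s) (one_add_pos β s₀ s).le

lemma wt_le (β s₀ s : ℝ) : wt β s₀ s ≤ 1 / (1 + β ^ 2 * (s - s₀) ^ 2) := by
  unfold wt
  have := one_add_pos β s₀ s
  gcongr
  exact Real.smoothTransition.le_one s

lemma wt_le_one (β s₀ s : ℝ) : wt β s₀ s ≤ 1 := by
  refine (wt_le β s₀ s).trans ?_
  rw [div_le_one (one_add_pos β s₀ s)]
  nlinarith [sq_nonneg (β * (s - s₀))]

lemma wt_zero {β s₀ s : ℝ} (hs : s ≤ 0) : wt β s₀ s = 0 := by
  unfold wt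
  rw [Real.smoothTransition.zero_of_nonpos hs, zero_div]

/-- there is a bound for the derivative of the smooth transition -/
lemma exists_bound_st : ∃ M, 0 ≤ M ∧ ∀ s, |deriv Real.smoothTransition s| ≤ M := by
  have h1 : Continuous (deriv Real.smoothTransition) :=
    (Real.smoothTransition.contDiff (n := 1)).continuous_deriv le_rfl
  obtain ⟨M, hM⟩ := (isCompact_Icc (a := (0:ℝ)) (b := 1)).exists_bound_of_continuousOn
    h1.continuousOn
  refine ⟨max M 0, le_max_right _ _, fun s => ?_⟩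
  by_cases hs : s ∈ Icc (0:ℝ) 1
  · exact (hM s hs).trans (le_max_left _ _)
  · have : deriv Real.smoothTransition s = 0 := by
      rw [mem_Icc, not_and_or, not_le, not_le] at hs
      rcases hs with hs | hs
      · have : Real.smoothTransition =ᶠ[𝓝 s] fun _ => 0 := by
          filter_upwards [gt_mem_nhds hs] with x hx
          exact Real.smoothTransition.zero_of_nonpos hx.le
        rw [this.deriv_eq]; simp
      · have : Real.smoothTransition =ᶠ[𝓝 s] fun _ => 1 := by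
          filter_upwards [lt_mem_nhds hs] with x hx
          exact Real.smoothTransition.one_of_one_le hx.le
        rw [this.deriv_eq]; simp
    rw [this, abs_zero]
    exact le_max_right _ _

lemma deriv_st_eq_zero {s : ℝ} (hs : 1 < s) : deriv Real.smoothTransition s = 0 := by
  have : Real.smoothTransition =ᶠ[𝓝 s] fun _ => 1 := by
    filter_upwards [lt_mem_nhds hs] with x hx
    exact Real.smoothTransition.one_of_one_le hx.le
  rw [this.deriv_eq]; simp

lemma hasDerivAt_wt (β s₀ s : ℝ) : HasDerivAt (wt β s₀)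
    (deriv Real.smoothTransition s / (1 + β ^ 2 * (s - s₀) ^ 2)
      - wt β s₀ s * (2 * β ^ 2 * (s - s₀) / (1 + β ^ 2 * (s - s₀) ^ 2))) s := by
  have h1 : HasDerivAt Real.smoothTransition (deriv Real.smoothTransition s) s :=
    ((Real.smoothTransition.contDiff (n := 1)).differentiable (by norm_num) s).hasDerivAt
  have h2 : HasDerivAt (fun s : ℝ => 1 + β ^ 2 * (s - s₀) ^ 2) (2 * β ^ 2 * (s - s₀)) s := by
    have := (((hasDerivAt_id' s).sub_const s₀).pow 2).const_mul (β ^ 2) |>.const_add 1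
    refine this.congr_deriv ?_
    push_cast
    ring
  have h3 := h1.div h2 (one_add_pos β s₀ s).ne'
  refine h3.congr_deriv ?_
  unfold wt
  have := (one_add_pos β s₀ s).ne'
  field_simp

lemma deriv_wt_sq_le {β s₀ M : ℝ} (hβ : 0 ≤ β) (hM : ∀ s, |deriv Real.smoothTransition s| ≤ M)
    (s : ℝ) : (deriv (wt β s₀) s) ^ 2 ≤ (if s ≤ 1 then 2 * M ^ 2 else 0)
      + 2 * β ^ 2 * (wt β s₀ s) ^ 2 := by
  rw [(hasDerivAt_wt β s₀ s).deriv]
  set D := 1 + β ^ 2 * (s - s₀) ^ 2 with hD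
  have hD1 : 1 ≤ D := by rw [hD]; nlinarith [sq_nonneg (β * (s - s₀))]
  have hD0 : 0 < D := by linarith
  set a := deriv Real.smoothTransition s / D with ha
  set b := wt β s₀ s * (2 * β ^ 2 * (s - s₀) / D) with hb
  have h1 : (a - b) ^ 2 ≤ 2 * a ^ 2 + 2 * b ^ 2 := by nlinarith [sq_nonneg (a + b)]
  have h2 : a ^ 2 ≤ if s ≤ 1 then M ^ 2 else 0 := by
    split_ifs with hs
    · have h3 : |a| ≤ M := by
        rw [ha, abs_div, abs_of_pos hD0, div_le_iff₀ hD0]
        have := hM s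
        have hM0 : 0 ≤ M := (abs_nonneg _).trans this
        nlinarith
      rw [← sq_abs]
      exact pow_le_pow_left₀ (abs_nonneg _) h3 2
    · push Not at hs
      rw [ha, deriv_st_eq_zero hs]
      simp
  have h3 : b ^ 2 ≤ β ^ 2 * (wt β s₀ s) ^ 2 := by
    have h4 : |2 * β ^ 2 * (s - s₀) / D| ≤ β := by
      rw [abs_div, abs_of_pos hD0, div_le_iff₀ hD0, abs_le]
      have e1 := mul_nonneg hβ (sq_nonneg (β * (s - s₀) + 1))
      have e2 := mul_nonneg hβ (sq_nonneg (β * (s - s₀) - 1))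
      constructor
      · rw [hD]; nlinarith
      · rw [hD]; nlinarith
    have h5 : (2 * β ^ 2 * (s - s₀) / D) ^ 2 ≤ β ^ 2 := by
      rw [← sq_abs]
      exact pow_le_pow_left₀ (abs_nonneg _) h4 2
    rw [hb, mul_pow]
    have := sq_nonneg (wt β s₀ s)
    nlinarith
  split_ifs at h2 ⊢ with hs
  · linarith
  · linarith

/-- the weight on the plane -/
noncomputable def Wt (β s₀ : ℝ) (z : ℂ) : ℝ := wt β s₀ (Real.log ‖z‖)

lemma Wt_nonneg (β s₀ : ℝ) (z : ℂ) : 0 ≤ Wt β s₀ z := wt_nonneg _ _ _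

lemma Wt_le_one (β s₀ : ℝ) (z : ℂ) : Wt β s₀ z ≤ 1 := wt_le_one _ _ _

lemma Wt_zero {β s₀ : ℝ} {z : ℂ} (hz : ‖z‖ ≤ 1) : Wt β s₀ z = 0 :=
  wt_zero (Real.log_nonpos (norm_nonneg _) hz)

lemma contDiff_Wt (β s₀ : ℝ) : ContDiff ℝ ∞ (Wt β s₀) := by
  rw [contDiff_iff_contDiffAt]
  intro z
  by_cases hz : z = 0
  · have : Wt β s₀ =ᶠ[𝓝 z] fun _ => 0 := by
      have h1 : ∀ᶠ w in 𝓝 z, ‖w‖ < 1 :=
        (continuous_norm.tendsto z).eventually (gt_mem_nhds (by simp [hz]))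
      filter_upwards [h1] with w hw
      exact Wt_zero hw.le
    exact contDiffAt_const.congr_of_eventuallyEq this
  · exact (contDiff_wt β s₀).contDiffAt.comp z (contDiffAt_logNorm hz)

lemma gr_Wt {β s₀ : ℝ} {z : ℂ} (hz : z ≠ 0) :
    gr (Wt β s₀) z = (deriv (wt β s₀) (Real.log ‖z‖)) ^ 2 * (1 / ‖z‖ ^ 2) := by
  have h1 : HasFDerivAt (fun w : ℂ => Real.log ‖w‖) (fderiv ℝ (fun w : ℂ => Real.log ‖w‖) z) z :=
    ((contDiffAt_logNorm hz).differentiableAt (by simp)).hasFDerivAt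
  have h2 : HasDerivAt (wt β s₀) (deriv (wt β s₀) (Real.log ‖z‖)) (Real.log ‖z‖) :=
    ((contDiff_wt β s₀).differentiable (by simp) _).hasDerivAt
  have h3 : HasFDerivAt (Wt β s₀) _ z := h2.comp_hasFDerivAt z h1
  have h4 : ∀ v, pd v (Wt β s₀) z = deriv (wt β s₀) (Real.log ‖z‖)
      * pd v (fun w : ℂ => Real.log ‖w‖) z := by
    intro v
    unfold pd
    rw [h3.fderiv]
    simp
  rw [← gr_logNorm hz]
  unfold gr
  rw [h4, h4]
  ring

lemma gr_Wt_le {β s₀ M : ℝ} (hβ : 0 ≤ β) (hM : ∀ s, |deriv Real.smoothTransition s| ≤ M) {z : ℂ}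
    (hz : z ≠ 0) :
    gr (Wt β s₀) z ≤ ((if ‖z‖ ≤ Real.exp 1 then 2 * M ^ 2 else 0)
      + 2 * β ^ 2 * (Wt β s₀ z) ^ 2) / ‖z‖ ^ 2 := by
  rw [gr_Wt hz, mul_one_div]
  have h0 : 0 < ‖z‖ := norm_pos_iff.2 hz
  gcongr
  have h1 := deriv_wt_sq_le (s₀ := s₀) hβ hM (Real.log ‖z‖)
  have h2 : (Real.log ‖z‖ ≤ 1) ↔ ‖z‖ ≤ Real.exp 1 := Real.log_le_iff_le_exp h0
  simp only [h2] at h1
  exact h1

lemma Wt_ge_half {β s₀ : ℝ} (hβ : 0 ≤ β) (hβ1 : β ≤ 1) {z : ℂ} (hz : Real.exp 1 ≤ ‖z‖)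
    (hs : |Real.log ‖z‖ - s₀| ≤ 1) : 1 / 2 ≤ Wt β s₀ z := by
  have h0 : 0 < ‖z‖ := (Real.exp_pos 1).trans_le hz
  have h1 : 1 ≤ Real.log ‖z‖ := (Real.le_log_iff_exp_le h0).2 hz
  unfold Wt wt
  rw [Real.smoothTransition.one_of_one_le h1]
  apply one_div_le_one_div_of_le (one_add_pos _ _ _)
  have h2 : (Real.log ‖z‖ - s₀) ^ 2 ≤ 1 := by
    rw [← sq_abs]
    exact pow_le_one₀ (abs_nonneg _) hs
  have h3 : β ^ 2 ≤ 1 := pow_le_one₀ hβ hβ1
  nlinarith [sq_nonneg β, sq_nonneg (Real.log ‖z‖ - s₀)]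

/-- the total mass of the squared weight is bounded independently of `s₀` -/
lemma integral_Wt_sq {β : ℝ} (hβ : 0 < β) (s₀ : ℝ) :
    Integrable (fun z : ℂ => (Wt β s₀ z) ^ 2 / ‖z‖ ^ 2) ∧
    ∫ z : ℂ, (Wt β s₀ z) ^ 2 / ‖z‖ ^ 2 ≤ 2 * π ^ 2 / β := by
  have hmX : Measurable (fun z : ℂ => (Wt β s₀ z) ^ 2 / ‖z‖ ^ 2) :=
    ((contDiff_Wt β s₀).continuous.measurable.pow_const 2).div (measurable_norm.pow_const 2)
  -- the radial integral
  set F : ℝ → ℝ := fun r => 1 / β * Real.arctan (β * (Real.log r - s₀)) with hF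
  have hder : ∀ r ∈ Ici (1:ℝ), HasDerivAt F
      (1 / r * (1 / (1 + β ^ 2 * (Real.log r - s₀) ^ 2))) r := by
    intro r hr
    have hr0 : (0:ℝ) < r := one_pos.trans_le hr
    have h1 := (((Real.hasDerivAt_log hr0.ne').sub_const s₀).const_mul β).arctan.const_mul (1 / β)
    refine h1.congr_deriv ?_
    have := one_add_pos β s₀ (Real.log r)
    have e : (β * (Real.log r - s₀)) ^ 2 = β ^ 2 * (Real.log r - s₀) ^ 2 := by ring
    rw [e]
    field_simp
  have hlim : Tendsto F atTop (𝓝 (1 / β * (π / 2))) := by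
    apply Tendsto.const_mul
    have h1 : Tendsto (fun r : ℝ => β * (Real.log r - s₀)) atTop atTop := by
      apply Tendsto.const_mul_atTop hβ
      exact tendsto_atTop_add_const_right _ _ Real.tendsto_log_atTop
    exact (tendsto_nhds_of_tendsto_nhdsWithin Real.tendsto_arctan_atTop).comp h1
  have hpos : ∀ r ∈ Ioi (1:ℝ), 0 ≤ 1 / r * (1 / (1 + β ^ 2 * (Real.log r - s₀) ^ 2)) := by
    intro r hr
    have hr0 : (0:ℝ) < r := one_pos.trans hr
    positivity
  have hint := integrableOn_Ioi_deriv_of_nonneg' hder hpos hlim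
  have hval := integral_Ioi_of_hasDerivAt_of_nonneg' hder hpos hlim
  have hval2 : ∫ r in Ioi (1:ℝ), 1 / r * (1 / (1 + β ^ 2 * (Real.log r - s₀) ^ 2)) ≤ π / β := by
    rw [hval]
    have h1 : -(π / 2) < Real.arctan (β * (Real.log 1 - s₀)) := Real.neg_pi_div_two_lt_arctan _
    simp only [hF]
    have h2 : 1 / β * (π / 2) - 1 / β * Real.arctan (β * (Real.log 1 - s₀))
        = (π / 2 - Real.arctan (β * (Real.log 1 - s₀))) / β := by ring
    rw [h2]
    gcongr
    linarith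
  have hlin : ∫⁻ z : ℂ, ENNReal.ofReal ((Wt β s₀ z) ^ 2 / ‖z‖ ^ 2)
      ≤ ENNReal.ofReal (2 * π ^ 2 / β) := by
    rw [lintegral_polar _ hmX.ennreal_ofReal]
    have hkey : ∀ r ∈ Ioi (0:ℝ), ENNReal.ofReal r * ∫⁻ x in Ioc (-π) π,
        ENNReal.ofReal ((Wt β s₀ (Complex.polarCoord.symm (r, x))) ^ 2 /
        ‖Complex.polarCoord.symm (r, x)‖ ^ 2)
        ≤ (Ioi (1:ℝ)).indicator (fun r => ENNReal.ofReal (2 * π) * ENNReal.ofReal
          (1 / r * (1 / (1 + β ^ 2 * (Real.log r - s₀) ^ 2)))) r := by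
      intro r hr
      have hr0 : (0:ℝ) < r := hr
      have hnorm : ∀ x, ‖Complex.polarCoord.symm (r, x)‖ = r := fun x => by
        rw [Complex.norm_polarCoord_symm]; exact abs_of_pos hr0
      rcases le_or_gt r 1 with h1 | h1
      · have h2 : ∀ x, Wt β s₀ (Complex.polarCoord.symm (r, x)) = 0 := fun x =>
          Wt_zero (by rw [hnorm]; exact h1)
        simp_rw [h2]
        simp
      · rw [indicator_of_mem (by exact h1)]
        have h3 : ∀ x, ENNReal.ofReal ((Wt β s₀ (Complex.polarCoord.symm (r, x))) ^ 2 /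
            ‖Complex.polarCoord.symm (r, x)‖ ^ 2)
            ≤ ENNReal.ofReal (1 / r ^ 2 * (1 / (1 + β ^ 2 * (Real.log r - s₀) ^ 2))) := by
          intro x
          apply ENNReal.ofReal_le_ofReal
          unfold Wt
          rw [hnorm, div_eq_mul_one_div, mul_comm]
          gcongr
          have h4 := wt_nonneg β s₀ (Real.log r)
          have h5 := wt_le_one β s₀ (Real.log r)
          have h6 := wt_le β s₀ (Real.log r)
          nlinarith
        calc _ ≤ ENNReal.ofReal r * ∫⁻ x in Ioc (-π) π, ENNReal.ofReal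
              (1 / r ^ 2 * (1 / (1 + β ^ 2 * (Real.log r - s₀) ^ 2))) := by
              gcongr with x
              exact (ENNReal.ofReal_le_ofReal_iff (by positivity)).1 (h3 x)
          _ = ENNReal.ofReal (2 * π) * ENNReal.ofReal
              (1 / r * (1 / (1 + β ^ 2 * (Real.log r - s₀) ^ 2))) := by
            have e0 : π - -π = 2 * π := by ring
            have hpi := Real.pi_pos
            rw [setLIntegral_const, Real.volume_Ioc, e0, ← ENNReal.ofReal_mul (by positivity),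
              ← ENNReal.ofReal_mul (by positivity), ← ENNReal.ofReal_mul (by positivity)]
            congr 1
            have := one_add_pos β s₀ (Real.log r)
            field_simp
    calc _ ≤ ∫⁻ r in Ioi (0:ℝ), (Ioi (1:ℝ)).indicator (fun r => ENNReal.ofReal (2 * π) *
          ENNReal.ofReal (1 / r * (1 / (1 + β ^ 2 * (Real.log r - s₀) ^ 2)))) r :=
          setLIntegral_mono' measurableSet_Ioi hkey
      _ = ENNReal.ofReal (2 * π) * ENNReal.ofReal (∫ r in Ioi (1:ℝ),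
          1 / r * (1 / (1 + β ^ 2 * (Real.log r - s₀) ^ 2))) := by
          rw [setLIntegral_indicator measurableSet_Ioi]
          have e2 : Ioi (1:ℝ) ∩ Ioi 0 = Ioi 1 := by
            rw [Ioi_inter_Ioi]; norm_num
          rw [e2, lintegral_const_mul' _ _ ENNReal.ofReal_ne_top,
            ofReal_integral_eq_lintegral_ofReal hint]
          filter_upwards [ae_restrict_mem measurableSet_Ioi] with r hr
          exact hpos r hr
      _ ≤ ENNReal.ofReal (2 * π) * ENNReal.ofReal (π / β) := by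
          gcongr
      _ = ENNReal.ofReal (2 * π ^ 2 / β) := by
          rw [← ENNReal.ofReal_mul (by positivity)]
          congr 1
          ring
  have hnn : ∀ z : ℂ, 0 ≤ (Wt β s₀ z) ^ 2 / ‖z‖ ^ 2 := fun z => by positivity
  constructor
  · refine ⟨hmX.aestronglyMeasurable, ?_⟩
    rw [hasFiniteIntegral_iff_ofReal (Eventually.of_forall hnn)]
    exact hlin.trans_lt ENNReal.ofReal_lt_top
  · rw [integral_eq_lintegral_of_nonneg_ae (f := fun z : ℂ => (Wt β s₀ z) ^ 2 / ‖z‖ ^ 2)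
      (Eventually.of_forall hnn) hmX.aestronglyMeasurable]
    exact ENNReal.toReal_le_of_le_ofReal (by positivity) hlin

end Pool.Agent.R737.HO
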