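import Pool.Agent.R737.HO.Complete
import Pool.Agent.R737.HO.Weight

open Filter Topology Set MeasureTheory Laplacian InnerProductSpace
open scoped ContDiff NNReal ENNReal Real

namespace Pool.Agent.R737.HO

variable {lam : ℂ → ℝ}

/-- cutoff built from the Riemannian distance to `0` -/
noncomputable def cut (lam : ℂ → ℝ) (R : ℝ) (z : ℂ) : ℝ := max 0 (min 1 (2 - riemDist lam 0 z / R))

lemma cut_nonneg (R : ℝ) (z : ℂ) : 0 ≤ cut lam R z := le_max_left _ _

lemma cut_le_one (R : ℝ) (z : ℂ) : cut lam R z ≤ 1 := max_le zero_le_one (min_le_left _ _)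

lemma cut_eq_one {R : ℝ} (hR : 0 < R) {z : ℂ} (h : riemDist lam 0 z ≤ R) : cut lam R z = 1 := by
  unfold cut
  have : riemDist lam 0 z / R ≤ 1 := (div_le_one hR).2 h
  rw [min_eq_left (by linarith), max_eq_right zero_le_one]

lemma cut_eq_zero {R : ℝ} (hR : 0 < R) {z : ℂ} (h : 2 * R ≤ riemDist lam 0 z) :
    cut lam R z = 0 := by
  unfold cut
  have : 2 ≤ riemDist lam 0 z / R := by rw [le_div_iff₀ hR]; exact h
  apply max_eq_left
  exact (min_le_right _ _).trans (by linarith)

lemma abs_cut_sub_le {R : ℝ} (hR : 0 < R) (z w : ℂ) :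
    |cut lam R w - cut lam R z| ≤ |riemDist lam 0 w - riemDist lam 0 z| / R := by
  unfold cut
  have h1 := abs_max_sub_max_le_max 0 (min 1 (2 - riemDist lam 0 w / R)) 0
    (min 1 (2 - riemDist lam 0 z / R))
  have h2 := abs_min_sub_min_le_max 1 (2 - riemDist lam 0 w / R) 1 (2 - riemDist lam 0 z / R)
  rw [sub_self, abs_zero] at h1 h2
  have h3 : |2 - riemDist lam 0 w / R - (2 - riemDist lam 0 z / R)|
      = |riemDist lam 0 w - riemDist lam 0 z| / R := by
    have : 2 - riemDist lam 0 w / R - (2 - riemDist lam 0 z / R)
      = -((riemDist lam 0 w - riemDist lam 0 z) / R) := by ring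
    rw [this, abs_neg, abs_div, abs_of_pos hR]
  rw [h3, max_eq_right (by positivity)] at h2
  refine h1.trans ?_
  exact max_le (by positivity) h2

lemma lc_cut (hlam : Continuous lam) (hpos : ∀ z, 0 < lam z) (hcomp : IsCompleteMetric lam)
    {R : ℝ} (hR : 0 < R) : LC (cut lam R) := by
  obtain ⟨B₀, hB₀⟩ := bounded_balls hlam hpos hcomp (2 * R)
  set B := max B₀ 0 with hBdef
  have hB : ∀ z, B < ‖z‖ → cut lam R z = 0 := by
    intro z hz
    apply cut_eq_zero hR
    by_contra hc
    push Not at hc
    have := hB₀ z hc.le
    have h2 : B₀ ≤ B := le_max_left _ _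
    linarith
  constructor
  · obtain ⟨M, hM⟩ := (isCompact_closedBall (0:ℂ) (B + 1)).exists_bound_of_continuousOn
      (Real.continuous_sqrt.comp hlam).continuousOn
    have hM0 : 0 ≤ M := (norm_nonneg _).trans (hM 0 (by simp; positivity))
    have hone : ∀ z w, |cut lam R z - cut lam R w| ≤ 1 := by
      intro z w
      rw [abs_le]
      have := cut_nonneg (lam := lam) R z
      have := cut_nonneg (lam := lam) R w
      have := cut_le_one (lam := lam) R z
      have := cut_le_one (lam := lam) R w
      constructor <;> linarith
    refine lipschitz_of_abs (C := max (M / R) 1) (by positivity) fun z w => ?_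
    by_cases hz : ‖z‖ ≤ B
    · by_cases hw : ‖w‖ ≤ B + 1
      · have h1 := abs_cut_sub_le (lam := lam) hR w z
        have h2 : |riemDist lam 0 z - riemDist lam 0 w| ≤ M * ‖z - w‖ := by
          have h3 : riemDist lam w z ≤ M * ‖z - w‖ := by
            apply riemDist_le_segment _ hlam
            intro x hx
            have : x ∈ Metric.closedBall (0:ℂ) (B + 1) :=
              (convex_closedBall (0:ℂ) (B + 1)).segment_subset (by simpa using hw)
                (by simpa using hz.trans (by linarith)) hx
            exact (le_abs_self _).trans (hM x this)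
          have h4 := riemDist_triangle hlam 0 w z
          have h5 := riemDist_triangle hlam 0 z w
          rw [riemDist_comm z w] at h5
          rw [abs_le]
          constructor <;> linarith
        calc |cut lam R z - cut lam R w| ≤ (M * ‖z - w‖) / R := h1.trans (by gcongr)
          _ = (M / R) * ‖z - w‖ := by ring
          _ ≤ max (M / R) 1 * ‖z - w‖ := by gcongr; exact le_max_left _ _
      · push Not at hw
        have h1 : 1 ≤ ‖z - w‖ := by
          have := norm_sub_norm_le w z
          rw [norm_sub_rev] at this
          linarith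
        calc |cut lam R z - cut lam R w| ≤ 1 := hone z w
          _ ≤ 1 * ‖z - w‖ := by linarith
          _ ≤ max (M / R) 1 * ‖z - w‖ := by gcongr; exact le_max_right _ _
    · push Not at hz
      by_cases hw : ‖w‖ ≤ B
      · by_cases hz' : ‖z‖ ≤ B + 1
        · have h1 := abs_cut_sub_le (lam := lam) hR w z
          have h2 : |riemDist lam 0 z - riemDist lam 0 w| ≤ M * ‖z - w‖ := by
            have h3 : riemDist lam w z ≤ M * ‖z - w‖ := by
              apply riemDist_le_segment _ hlam
              intro x hx
              have : x ∈ Metric.closedBall (0:ℂ) (B + 1) :=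
                (convex_closedBall (0:ℂ) (B + 1)).segment_subset
                  (by simpa using hw.trans (by linarith)) (by simpa using hz') hx
              exact (le_abs_self _).trans (hM x this)
            have h4 := riemDist_triangle hlam 0 w z
            have h5 := riemDist_triangle hlam 0 z w
            rw [riemDist_comm z w] at h5
            rw [abs_le]
            constructor <;> linarith
          calc |cut lam R z - cut lam R w| ≤ (M * ‖z - w‖) / R := h1.trans (by gcongr)
            _ = (M / R) * ‖z - w‖ := by ring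
            _ ≤ max (M / R) 1 * ‖z - w‖ := by gcongr; exact le_max_left _ _
        · push Not at hz'
          have h1 : 1 ≤ ‖z - w‖ := by
            have := norm_sub_norm_le z w
            linarith
          calc |cut lam R z - cut lam R w| ≤ 1 := hone z w
            _ ≤ 1 * ‖z - w‖ := by linarith
            _ ≤ max (M / R) 1 * ‖z - w‖ := by gcongr; exact le_max_right _ _
      · push Not at hw
        rw [hB z hz, hB w hw, sub_self, abs_zero]
        positivity
  · apply HasCompactSupport.intro (isCompact_closedBall (0:ℂ) B)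
    intro x hx
    apply hB
    simpa using hx

lemma gr_cut_le (hlam : Continuous lam) (hpos : ∀ z, 0 < lam z) {R : ℝ} (hR : 0 < R) (z : ℂ) :
    gr (cut lam R) z ≤ lam z / R ^ 2 := by
  have hs := slope_dist hlam 0
  have h1 : ‖fderiv ℝ (cut lam R) z‖ ≤ √(lam z) / R := by
    by_cases hd : DifferentiableAt ℝ (cut lam R) z
    · apply le_of_forall_pos_le_add
      intro ε hε
      have h2 := hs z (ε * R) (by positivity)
      have h3 : ∀ᶠ w in 𝓝 z, ‖cut lam R w - cut lam R z‖ ≤ (√(lam z) / R + ε) * ‖w - z‖ := by
        filter_upwards [h2] with w hw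
        rw [Real.norm_eq_abs]
        refine (abs_cut_sub_le hR z w).trans ?_
        rw [div_le_iff₀ hR]
        refine hw.trans (le_of_eq ?_)
        field_simp
      exact hd.hasFDerivAt.le_of_lip' (by positivity) h3
    · rw [fderiv_zero_of_not_differentiableAt hd, norm_zero]
      positivity
  calc gr (cut lam R) z ≤ ‖fderiv ℝ (cut lam R) z‖ ^ 2 := gr_le_norm_fderiv _ _
    _ ≤ (√(lam z) / R) ^ 2 := pow_le_pow_left₀ (norm_nonneg _) h1 2
    _ = lam z / R ^ 2 := by rw [div_pow, Real.sq_sqrt (hpos z).le]

end Pool.Agent.R737.HO
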