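import Mathlib

/-!
# Conformal metrics on the complex plane

Definitions for the Riemannian metric `lam * (dx² + dy²)` on `ℂ`, where `lam` is a smooth positive
function: length of paths, Riemannian distance, completeness, Gauss curvature, and the Hadamard
order of an entire function.
-/

open Filter Topology Laplacian

namespace Pool.Agent.R737.HO

/-- The Riemannian length of a `C¹` path `γ : [0,1] → ℂ` for the metric `lam * (dx² + dy²)`. -/
noncomputable def pathLength (lam : ℂ → ℝ) (γ : ℝ → ℂ) : ℝ :=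
  ∫ t in (0:ℝ)..1, √(lam (γ t)) * ‖deriv γ t‖

/-- The Riemannian distance of the metric `lam * (dx² + dy²)`: the infimum of the lengths of the
`C¹` paths from `p` to `q`. -/
noncomputable def riemDist (lam : ℂ → ℝ) (p q : ℂ) : ℝ :=
  sInf {L : ℝ | ∃ γ : ℝ → ℂ, ContDiff ℝ 1 γ ∧ γ 0 = p ∧ γ 1 = q ∧ L = pathLength lam γ}

/-- The Gauss curvature `K = - Δ (log lam) / (2 lam)` of the metric `lam * (dx² + dy²)`. -/
noncomputable def gaussCurv (lam : ℂ → ℝ) (z : ℂ) : ℝ :=
  - (Δ (fun w => Real.log (lam w)) z) / (2 * lam z)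

/-- The metric `lam * (dx² + dy²)` is complete: every Cauchy sequence for the Riemannian distance
converges for the Riemannian distance. -/
def IsCompleteMetric (lam : ℂ → ℝ) : Prop :=
  ∀ x : ℕ → ℂ, (∀ ε > 0, ∃ N, ∀ m ≥ N, ∀ n ≥ N, riemDist lam (x m) (x n) < ε) →
    ∃ y : ℂ, Tendsto (fun n => riemDist lam (x n) y) atTop (𝓝 0)

/-- The Hadamard order `limsup_{p → ∞} log log |f p| / log d(p, 0)` of a function `f` with respect
to the metric `lam * (dx² + dy²)`; points with `|f p| ≤ 1` are ignored. -/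
noncomputable def hadamardOrder (lam : ℂ → ℝ) (f : ℂ → ℂ) : EReal :=
  limsup (fun p : ℂ =>
    ((Real.log (Real.log ‖f p‖) / Real.log (riemDist lam p 0) : ℝ) : EReal))
    (cocompact ℂ ⊓ 𝓟 {p : ℂ | 1 < ‖f p‖})

end Pool.Agent.R737.HO
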