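import Pool.Agent.R737.HO.Defs

open Filter Topology Set MeasureTheory intervalIntegral

namespace Pool.Agent.R737.HO

variable {lam : ℂ → ℝ}

/-- the local Lipschitz constant of `h` at every point `z` is at most `√(lam z)` -/
def SlopeLE (lam : ℂ → ℝ) (h : ℂ → ℝ) : Prop :=
  ∀ z, ∀ ε > 0, ∀ᶠ w in 𝓝 z, |h w - h z| ≤ (√(lam z) + ε) * ‖w - z‖

lemma SlopeLE.continuous {h : ℂ → ℝ} (hs : SlopeLE lam h) : Continuous h := by
  rw [continuous_iff_continuousAt]
  intro z
  have h1 := hs z 1 one_pos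
  have h2 : Tendsto (fun w : ℂ => (√(lam z) + 1) * ‖w - z‖) (𝓝 z) (𝓝 0) := by
    have : Continuous (fun w : ℂ => (√(lam z) + 1) * ‖w - z‖) := by fun_prop
    have h3 := this.tendsto z
    simpa using h3
  rw [ContinuousAt, tendsto_iff_norm_sub_tendsto_zero]
  refine squeeze_zero' (Eventually.of_forall fun w => norm_nonneg _) ?_ h2
  filter_upwards [h1] with w hw
  simpa [Real.norm_eq_abs] using hw

lemma speed_continuous (hlam : Continuous lam) {γ : ℝ → ℂ} (hγ : ContDiff ℝ 1 γ) :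
    Continuous (fun t => √(lam (γ t)) * ‖deriv γ t‖) := by
  have h1 : Continuous (deriv γ) := hγ.continuous_deriv le_rfl
  have h2 : Continuous γ := hγ.continuous
  exact (Real.continuous_sqrt.comp (hlam.comp h2)).mul h1.norm

lemma sub_le_length (hlam : Continuous lam) {h : ℂ → ℝ} (hs : SlopeLE lam h) {γ : ℝ → ℂ}
    (hγ : ContDiff ℝ 1 γ) {a b : ℝ} (hab : a ≤ b) :
    h (γ b) - h (γ a) ≤ ∫ t in a..b, √(lam (γ t)) * ‖deriv γ t‖ := by
  have hsp := speed_continuous hlam hγ
  have hB : ∀ x : ℝ, HasDerivAt (fun t => h (γ a) + ∫ s in a..t, √(lam (γ s)) * ‖deriv γ s‖)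
      (√(lam (γ x)) * ‖deriv γ x‖) x := by
    intro x
    have := (hsp.integral_hasStrictDerivAt a x).hasDerivAt
    exact this.const_add _
  have key := @image_le_of_liminf_slope_right_le_deriv_boundary (fun t => h (γ t)) a b
    ((hs.continuous.comp hγ.continuous).continuousOn)
    (fun t => h (γ a) + ∫ s in a..t, √(lam (γ s)) * ‖deriv γ s‖)
    (fun x => √(lam (γ x)) * ‖deriv γ x‖) (by simp)
    (fun x _ => (hB x).continuousAt.continuousWithinAt)
    (fun x _ => (hB x).hasDerivWithinAt)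
    (by
      intro x _ r hr
      apply Eventually.frequently
      -- choose ε
      have hc : Tendsto (fun ε : ℝ => (√(lam (γ x)) + ε) * (‖deriv γ x‖ + ε)) (𝓝[>] 0)
          (𝓝 (√(lam (γ x)) * ‖deriv γ x‖)) := by
        have : Continuous (fun ε : ℝ => (√(lam (γ x)) + ε) * (‖deriv γ x‖ + ε)) := by fun_prop
        have h3 := (this.tendsto 0).mono_left (nhdsWithin_le_nhds (s := Ioi 0))
        simpa using h3
      obtain ⟨ε, hε, hε0⟩ := ((hc.eventually (gt_mem_nhds hr)).and self_mem_nhdsWithin).exists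
      have hε0' : (0:ℝ) < ε := hε0
      have h1 : ∀ᶠ z in 𝓝 x, |h (γ z) - h (γ x)| ≤ (√(lam (γ x)) + ε) * ‖γ z - γ x‖ :=
        (hγ.continuous.tendsto x).eventually (hs (γ x) ε hε0')
      have hd : HasDerivAt γ (deriv γ x) x :=
        (hγ.differentiable (by norm_num) x).hasDerivAt
      have h2 : ∀ᶠ z in 𝓝 x, ‖γ z - γ x - (z - x) • deriv γ x‖ ≤ ε * ‖z - x‖ := by
        have := hasDerivAt_iff_isLittleO.1 hd
        exact this.bound hε0'
      have h3 : ∀ᶠ z in 𝓝[>] x, |h (γ z) - h (γ x)| ≤ (√(lam (γ x)) + ε) * ‖γ z - γ x‖ :=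
        h1.filter_mono nhdsWithin_le_nhds
      have h4 : ∀ᶠ z in 𝓝[>] x, ‖γ z - γ x - (z - x) • deriv γ x‖ ≤ ε * ‖z - x‖ :=
        h2.filter_mono nhdsWithin_le_nhds
      filter_upwards [h3, h4, self_mem_nhdsWithin] with z hz1 hz2 hz3
      have hzx : 0 < z - x := sub_pos.2 hz3
      have h5 : ‖γ z - γ x‖ ≤ (‖deriv γ x‖ + ε) * (z - x) := by
        have h6 : ‖γ z - γ x‖ ≤ ‖γ z - γ x - (z - x) • deriv γ x‖ + ‖(z - x) • deriv γ x‖ := by
          have := norm_add_le (γ z - γ x - (z - x) • deriv γ x) ((z - x) • deriv γ x)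
          simpa using this
        rw [norm_smul] at h6
        rw [Real.norm_eq_abs, abs_of_pos hzx] at h6 hz2
        nlinarith
      rw [slope_def_field, div_lt_iff₀ hzx]
      calc h (γ z) - h (γ x) ≤ |h (γ z) - h (γ x)| := le_abs_self _
        _ ≤ (√(lam (γ x)) + ε) * ‖γ z - γ x‖ := hz1
        _ ≤ (√(lam (γ x)) + ε) * ((‖deriv γ x‖ + ε) * (z - x)) := by
            apply mul_le_mul_of_nonneg_left h5
            positivity
        _ = ((√(lam (γ x)) + ε) * (‖deriv γ x‖ + ε)) * (z - x) := by ring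
        _ < r * (z - x) := by
            apply mul_lt_mul_of_pos_right hε hzx)
    b (right_mem_Icc.2 hab)
  have key2 : h (γ b) ≤ h (γ a) + ∫ t in a..b, √(lam (γ t)) * ‖deriv γ t‖ := key
  linarith

lemma pathLength_nonneg (γ : ℝ → ℂ) : 0 ≤ pathLength lam γ :=
  intervalIntegral.integral_nonneg zero_le_one fun t _ => by positivity

lemma bddBelow_lengths (p q : ℂ) :
    BddBelow {L : ℝ | ∃ γ : ℝ → ℂ, ContDiff ℝ 1 γ ∧ γ 0 = p ∧ γ 1 = q ∧ L = pathLength lam γ} :=
  ⟨0, by rintro L ⟨γ, -, -, -, rfl⟩; exact pathLength_nonneg γ⟩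

lemma nonempty_lengths (p q : ℂ) :
    {L : ℝ | ∃ γ : ℝ → ℂ, ContDiff ℝ 1 γ ∧ γ 0 = p ∧ γ 1 = q ∧ L = pathLength lam γ}.Nonempty :=
  ⟨_, fun t : ℝ => p + t • (q - p), by fun_prop, by simp, by simp, rfl⟩

lemma riemDist_le (γ : ℝ → ℂ) (hγ : ContDiff ℝ 1 γ) : riemDist lam (γ 0) (γ 1) ≤ pathLength lam γ :=
  csInf_le (bddBelow_lengths _ _) ⟨γ, hγ, rfl, rfl, rfl⟩

lemma exists_path {p q : ℂ} {r : ℝ} (h : riemDist lam p q < r) :
    ∃ γ : ℝ → ℂ, ContDiff ℝ 1 γ ∧ γ 0 = p ∧ γ 1 = q ∧ pathLength lam γ < r := by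
  obtain ⟨L, ⟨γ, h1, h2, h3, rfl⟩, h4⟩ := exists_lt_of_csInf_lt (nonempty_lengths p q) h
  exact ⟨γ, h1, h2, h3, h4⟩

lemma riemDist_nonneg (p q : ℂ) : 0 ≤ riemDist lam p q :=
  le_csInf (nonempty_lengths p q) (by rintro L ⟨γ, -, -, -, rfl⟩; exact pathLength_nonneg γ)

lemma riemDist_self (p : ℂ) : riemDist lam p p = 0 := by
  apply le_antisymm _ (riemDist_nonneg p p)
  have := riemDist_le (lam := lam) (fun _ : ℝ => p) contDiff_const
  simpa [pathLength] using this

/-- a function with slope at most `√lam` is `1`-Lipschitz for the Riemannian distance -/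
lemma sub_le_riemDist (hlam : Continuous lam) {h : ℂ → ℝ} (hs : SlopeLE lam h) (p q : ℂ) :
    h q - h p ≤ riemDist lam p q := by
  apply le_csInf (nonempty_lengths p q)
  rintro L ⟨γ, h1, rfl, rfl, rfl⟩
  exact sub_le_length hlam hs h1 zero_le_one

lemma riemDist_comm_le (p q : ℂ) : riemDist lam q p ≤ riemDist lam p q := by
  apply le_csInf (nonempty_lengths p q)
  rintro L ⟨γ, h1, rfl, rfl, rfl⟩
  have h2 : ContDiff ℝ 1 (fun t : ℝ => γ (1 - t)) := h1.comp (by fun_prop)
  have h3 := riemDist_le (lam := lam) _ h2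
  simp only [sub_zero, sub_self] at h3
  refine h3.trans (le_of_eq ?_)
  unfold pathLength
  have h4 : ∀ t : ℝ, deriv (fun t : ℝ => γ (1 - t)) t = - deriv γ (1 - t) := by
    intro t
    exact deriv_comp_const_sub γ 1 t
  simp only [h4, norm_neg]
  have := intervalIntegral.integral_comp_sub_left (a := 0) (b := 1)
    (fun t : ℝ => √(lam (γ t)) * ‖deriv γ t‖) 1
  simpa using this

lemma riemDist_comm (p q : ℂ) : riemDist lam p q = riemDist lam q p :=
  le_antisymm (riemDist_comm_le q p) (riemDist_comm_le p q)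

/-- the length of a reparametrised path -/
lemma length_comp (hlam : Continuous lam) {γ : ℝ → ℂ} (hγ : ContDiff ℝ 1 γ) {h : ℝ → ℝ}
    (hh : ContDiff ℝ 1 h) (hmono : Monotone h) (a b : ℝ) :
    ∫ t in a..b, √(lam (γ (h t))) * ‖deriv (fun s => γ (h s)) t‖
      = ∫ t in (h a)..(h b), √(lam (γ t)) * ‖deriv γ t‖ := by
  have h1 : ∀ t, deriv (fun s => γ (h s)) t = deriv h t • deriv γ (h t) := by
    intro t
    exact ((hγ.differentiable (by norm_num) (h t)).hasDerivAt.scomp t
      (hh.differentiable (by norm_num) t).hasDerivAt).deriv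
  have h2 : ∀ t, 0 ≤ deriv h t := fun t => hmono.deriv_nonneg
  have h3 := intervalIntegral.integral_comp_mul_deriv (a := a) (b := b) (f := h) (f' := deriv h)
    (g := fun t : ℝ => √(lam (γ t)) * ‖deriv γ t‖)
    (fun x _ => (hh.differentiable (by norm_num) x).hasDerivAt)
    ((hh.continuous_deriv le_rfl).continuousOn) (speed_continuous hlam hγ)
  rw [← h3]
  congr 1
  funext t
  rw [h1, norm_smul, Real.norm_eq_abs, abs_of_nonneg (h2 t)]
  simp only [Function.comp]
  ring

lemma smoothTransition_monotone : Monotone Real.smoothTransition := by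
  intro x y hxy
  unfold Real.smoothTransition
  have hx := Real.smoothTransition.pos_denom x
  have hy := Real.smoothTransition.pos_denom y
  rw [div_le_div_iff₀ hx hy]
  have h1 : expNegInvGlue x ≤ expNegInvGlue y := expNegInvGlue.monotone hxy
  have h2 : expNegInvGlue (1 - y) ≤ expNegInvGlue (1 - x) := expNegInvGlue.monotone (by linarith)
  have h3 := expNegInvGlue.nonneg x
  have h4 := expNegInvGlue.nonneg (1 - y)
  nlinarith [mul_le_mul h1 h2 h4 (h3.trans h1)]

lemma deriv_zero_left {f : ℝ → ℂ} {c : ℂ} {a : ℝ} (hf : Differentiable ℝ f)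
    (h : ∀ r ≤ a, f r = c) {r : ℝ} (hr : r ≤ a) : deriv f r = 0 := by
  have h1 : HasDerivWithinAt f (deriv f r) (Set.Iic r) r := (hf r).hasDerivAt.hasDerivWithinAt
  have h2 : HasDerivWithinAt f 0 (Set.Iic r) r := by
    have h3 : HasDerivWithinAt (fun _ : ℝ => c) 0 (Set.Iic r) r := hasDerivWithinAt_const _ _ _
    exact h3.congr (fun x hx => h x (le_trans hx hr)) (h r hr)
  exact (uniqueDiffWithinAt_Iic r).eq_deriv _ h1 h2

lemma deriv_zero_right {f : ℝ → ℂ} {c : ℂ} {a : ℝ} (hf : Differentiable ℝ f)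
    (h : ∀ r, a ≤ r → f r = c) {r : ℝ} (hr : a ≤ r) : deriv f r = 0 := by
  have h1 : HasDerivWithinAt f (deriv f r) (Set.Ici r) r := (hf r).hasDerivAt.hasDerivWithinAt
  have h2 : HasDerivWithinAt f 0 (Set.Ici r) r := by
    have h3 : HasDerivWithinAt (fun _ : ℝ => c) 0 (Set.Ici r) r := hasDerivWithinAt_const _ _ _
    exact h3.congr (fun x hx => h x (le_trans hr hx)) (h r hr)
  exact (uniqueDiffWithinAt_Ici r).eq_deriv _ h1 h2

/-- concatenation of `C¹` paths -/
lemma exists_concat (hlam : Continuous lam) {γ₁ γ₂ : ℝ → ℂ} (h1 : ContDiff ℝ 1 γ₁)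
    (h2 : ContDiff ℝ 1 γ₂) (h12 : γ₁ 1 = γ₂ 0) :
    ∃ γ : ℝ → ℂ, ContDiff ℝ 1 γ ∧ γ 0 = γ₁ 0 ∧ γ 1 = γ₂ 1 ∧
      pathLength lam γ = pathLength lam γ₁ + pathLength lam γ₂ := by
  have hσ1 : ContDiff ℝ 1 (fun t : ℝ => Real.smoothTransition (2 * t)) :=
    Real.smoothTransition.contDiff.comp (by fun_prop)
  have hσ2 : ContDiff ℝ 1 (fun t : ℝ => Real.smoothTransition (2 * t - 1)) :=
    Real.smoothTransition.contDiff.comp (by fun_prop)
  have hm1 : Monotone (fun t : ℝ => Real.smoothTransition (2 * t)) := fun x y hxy =>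
    smoothTransition_monotone (by linarith)
  have hm2 : Monotone (fun t : ℝ => Real.smoothTransition (2 * t - 1)) := fun x y hxy =>
    smoothTransition_monotone (by linarith)
  have hc1 : ContDiff ℝ 1 (fun t : ℝ => γ₁ (Real.smoothTransition (2 * t))) := h1.comp hσ1
  have hc2 : ContDiff ℝ 1 (fun t : ℝ => γ₂ (Real.smoothTransition (2 * t - 1))) := h2.comp hσ2
  have hcc : ContDiff ℝ 1 (fun t : ℝ => γ₁ (Real.smoothTransition (2 * t))
    + γ₂ (Real.smoothTransition (2 * t - 1)) - γ₂ 0) := (hc1.add hc2).sub contDiff_const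
  have hz : ∀ t ≤ (1/2 : ℝ), γ₂ (Real.smoothTransition (2 * t - 1)) = γ₂ 0 := by
    intro t ht
    rw [Real.smoothTransition.zero_of_nonpos (by linarith)]
  have ho : ∀ t, (1/2 : ℝ) ≤ t → γ₁ (Real.smoothTransition (2 * t)) = γ₁ 1 := by
    intro t ht
    rw [Real.smoothTransition.one_of_one_le (by linarith)]
  refine ⟨_, hcc, ?_, ?_, ?_⟩
  · simp only [mul_zero, Real.smoothTransition.zero, zero_sub]
    rw [Real.smoothTransition.zero_of_nonpos (by norm_num)]
    ring
  · have e1 : (2 * (1:ℝ) - 1) = 1 := by norm_num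
    rw [ho 1 (by norm_num), e1, Real.smoothTransition.one, h12]
    ring
  · unfold pathLength
    have hint := speed_continuous hlam hcc
    rw [← intervalIntegral.integral_add_adjacent_intervals (b := (1/2 : ℝ))
      (hint.intervalIntegrable _ _) (hint.intervalIntegrable _ _)]
    have hd : ∀ t : ℝ, deriv (fun t : ℝ => γ₁ (Real.smoothTransition (2 * t))
        + γ₂ (Real.smoothTransition (2 * t - 1)) - γ₂ 0) t
        = deriv (fun t : ℝ => γ₁ (Real.smoothTransition (2 * t))) t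
          + deriv (fun t : ℝ => γ₂ (Real.smoothTransition (2 * t - 1))) t := by
      intro t
      have a1 := (hc1.differentiable (by norm_num) t).hasDerivAt
      have a2 := (hc2.differentiable (by norm_num) t).hasDerivAt
      exact ((a1.add a2).sub_const _).deriv
    have hA : ∫ t in (0:ℝ)..(1/2 : ℝ), √(lam (γ₁ (Real.smoothTransition (2 * t))
        + γ₂ (Real.smoothTransition (2 * t - 1)) - γ₂ 0)) *
        ‖deriv (fun t : ℝ => γ₁ (Real.smoothTransition (2 * t))
        + γ₂ (Real.smoothTransition (2 * t - 1)) - γ₂ 0) t‖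
        = ∫ t in (0:ℝ)..1, √(lam (γ₁ t)) * ‖deriv γ₁ t‖ := by
      have e0 := length_comp hlam h1 hσ1 hm1 0 (1/2)
      have e1 : Real.smoothTransition (2 * (0:ℝ)) = 0 := by simp
      have e2 : Real.smoothTransition (2 * (1/2:ℝ)) = 1 := by norm_num
      rw [e1, e2] at e0
      rw [← e0]
      apply intervalIntegral.integral_congr
      intro t ht
      rw [uIcc_of_le (by norm_num)] at ht
      simp only
      rw [hd, deriv_zero_left (hc2.differentiable (by norm_num)) hz ht.2, hz t ht.2]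
      simp
    have hB : ∫ t in (1/2 : ℝ)..(1:ℝ), √(lam (γ₁ (Real.smoothTransition (2 * t))
        + γ₂ (Real.smoothTransition (2 * t - 1)) - γ₂ 0)) *
        ‖deriv (fun t : ℝ => γ₁ (Real.smoothTransition (2 * t))
        + γ₂ (Real.smoothTransition (2 * t - 1)) - γ₂ 0) t‖
        = ∫ t in (0:ℝ)..1, √(lam (γ₂ t)) * ‖deriv γ₂ t‖ := by
      have e0 := length_comp hlam h2 hσ2 hm2 (1/2) 1
      have e1 : Real.smoothTransition (2 * (1/2:ℝ) - 1) = 0 := by norm_num
      have e2 : Real.smoothTransition (2 * (1:ℝ) - 1) = 1 := by norm_num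
      rw [e1, e2] at e0
      rw [← e0]
      apply intervalIntegral.integral_congr
      intro t ht
      rw [uIcc_of_le (by norm_num)] at ht
      simp only
      rw [hd, deriv_zero_right (hc1.differentiable (by norm_num)) ho ht.1, ho t ht.1, h12]
      simp
    rw [hA, hB]

lemma riemDist_triangle (hlam : Continuous lam) (p q r : ℂ) :
    riemDist lam p r ≤ riemDist lam p q + riemDist lam q r := by
  refine le_of_forall_pos_le_add fun ε hε => ?_
  obtain ⟨γ₁, h1, a1, b1, l1⟩ := exists_path (lam := lam)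
    (show riemDist lam p q < riemDist lam p q + ε / 2 by linarith)
  obtain ⟨γ₂, h2, a2, b2, l2⟩ := exists_path (lam := lam)
    (show riemDist lam q r < riemDist lam q r + ε / 2 by linarith)
  obtain ⟨γ, h3, a3, b3, l3⟩ := exists_concat hlam h1 h2 (b1.trans a2.symm)
  have h4 := riemDist_le (lam := lam) γ h3
  rw [a3, b3, a1, b2, l3] at h4
  linarith

/-- an initial piece of a path -/
lemma riemDist_le_of_piece (hlam : Continuous lam) {γ : ℝ → ℂ} (hγ : ContDiff ℝ 1 γ) {a b : ℝ}
    (hab : a ≤ b) : riemDist lam (γ a) (γ b) ≤ ∫ t in a..b, √(lam (γ t)) * ‖deriv γ t‖ := by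
  have hh : ContDiff ℝ 1 (fun t : ℝ => a + t * (b - a)) := by fun_prop
  have hm : Monotone (fun t : ℝ => a + t * (b - a)) := fun x y hxy => by
    have : 0 ≤ b - a := sub_nonneg.2 hab
    nlinarith
  have h1 := riemDist_le (lam := lam) (fun t : ℝ => γ (a + t * (b - a))) (hγ.comp hh)
  have h2 := length_comp hlam hγ hh hm 0 1
  simp only [zero_mul, add_zero, one_mul, add_sub_cancel] at h1 h2
  rw [pathLength, h2] at h1
  exact h1

/-- the distance is at most the length of the straight segment -/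
lemma riemDist_le_segment {p q : ℂ} {M : ℝ}
    (hM : ∀ z ∈ segment ℝ p q, √(lam z) ≤ M) (hlam : Continuous lam) :
    riemDist lam p q ≤ M * ‖q - p‖ := by
  have hγ : ContDiff ℝ 1 (fun t : ℝ => p + t • (q - p)) := by fun_prop
  have h1 := riemDist_le (lam := lam) _ hγ
  simp only [zero_smul, add_zero, one_smul, add_sub_cancel] at h1
  refine h1.trans ?_
  unfold pathLength
  have hd : ∀ t : ℝ, deriv (fun t : ℝ => p + t • (q - p)) t = q - p := by
    intro t
    have : HasDerivAt (fun t : ℝ => p + t • (q - p)) ((1:ℝ) • (q - p)) t :=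
      ((hasDerivAt_id t).smul_const (q - p)).const_add p
    rw [this.deriv, one_smul]
  have hsp := speed_continuous hlam hγ
  calc ∫ t in (0:ℝ)..1, √(lam (p + t • (q - p))) * ‖deriv (fun t : ℝ => p + t • (q - p)) t‖
      ≤ ∫ t in (0:ℝ)..1, M * ‖q - p‖ := by
        apply intervalIntegral.integral_mono_on zero_le_one (hsp.intervalIntegrable _ _)
          (by simp)
        intro t ht
        rw [hd]
        apply mul_le_mul_of_nonneg_right _ (norm_nonneg _)
        apply hM
        rw [segment_eq_image']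
        exact ⟨t, ht, rfl⟩
    _ = M * ‖q - p‖ := by simp

end Pool.Agent.R737.HO
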