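import Pool.Agent.R737.HO.Lap

open Filter Topology Set MeasureTheory Laplacian InnerProductSpace
open scoped ContDiff NNReal

namespace Pool.Agent.R737.HO

/-- Lipschitz with compact support -/
def LC (f : ℂ → ℝ) : Prop := (∃ C, LipschitzWith C f) ∧ HasCompactSupport f

lemma LC.continuous {f : ℂ → ℝ} (hf : LC f) : Continuous f := by
  obtain ⟨⟨C, hC⟩, _⟩ := hf
  exact hC.continuous

lemma LC.exists_bound {f : ℂ → ℝ} (hf : LC f) : ∃ M, 0 ≤ M ∧ ∀ z, |f z| ≤ M := by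
  obtain ⟨M, hM⟩ := hf.2.exists_bound_of_continuous hf.continuous
  exact ⟨M, (norm_nonneg _).trans (hM 0), hM⟩

lemma lipschitz_of_abs {f : ℂ → ℝ} {C : ℝ} (hC : 0 ≤ C) (h : ∀ z w, |f z - f w| ≤ C * ‖z - w‖) :
    ∃ C, LipschitzWith C f := by
  refine ⟨⟨C, hC⟩, LipschitzWith.of_dist_le_mul fun z w => ?_⟩
  rw [Real.dist_eq, dist_eq_norm]
  exact h z w

lemma abs_of_lipschitz {f : ℂ → ℝ} {C : ℝ≥0} (h : LipschitzWith C f) (z w : ℂ) :
    |f z - f w| ≤ C * ‖z - w‖ := by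
  have := h.dist_le_mul z w
  rwa [Real.dist_eq, dist_eq_norm] at this

lemma LC.mul {f g : ℂ → ℝ} (hf : LC f) (hg : LC g) : LC (fun z => f z * g z) := by
  obtain ⟨M, hM0, hM⟩ := hf.exists_bound
  obtain ⟨N, hN0, hN⟩ := hg.exists_bound
  obtain ⟨⟨C, hC⟩, hfc⟩ := hf
  obtain ⟨⟨D, hD⟩, hgc⟩ := hg
  refine ⟨lipschitz_of_abs (C := M * D + N * C) (by positivity) fun z w => ?_, hfc.mul_right⟩
  have h1 : f z * g z - f w * g w = f z * (g z - g w) + g w * (f z - f w) := by ring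
  rw [h1]
  have h2 := abs_of_lipschitz hC z w
  have h3 := abs_of_lipschitz hD z w
  calc |f z * (g z - g w) + g w * (f z - f w)| ≤ |f z * (g z - g w)| + |g w * (f z - f w)| :=
        abs_add_le _ _
    _ = |f z| * |g z - g w| + |g w| * |f z - f w| := by rw [abs_mul, abs_mul]
    _ ≤ M * (D * ‖z - w‖) + N * (C * ‖z - w‖) := by
        gcongr
        · exact hM z
        · exact hN w
    _ = (M * D + N * C) * ‖z - w‖ := by ring

lemma LC.of_contDiff {f : ℂ → ℝ} (hf : ContDiff ℝ 1 f) (hc : HasCompactSupport f) : LC f :=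
  ⟨ContDiff.lipschitzWith_of_hasCompactSupport hc hf (by norm_num), hc⟩

lemma exists_cutoff {K : Set ℂ} (hK : IsCompact K) :
    ∃ τ : ℂ → ℝ, ContDiff ℝ ∞ τ ∧ HasCompactSupport τ ∧ ∀ z ∈ K, τ z = 1 := by
  obtain ⟨R, hR⟩ := hK.isBounded.subset_closedBall (0 : ℂ)
  let ρ : ContDiffBump (0 : ℂ) := ⟨max R 1, max R 1 + 1, by positivity, by linarith⟩
  refine ⟨ρ, ρ.contDiff, ρ.hasCompactSupport, fun z hz => ρ.one_of_mem_closedBall ?_⟩
  exact Metric.closedBall_subset_closedBall (le_max_left _ _) (hR hz)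

lemma LC.mul_contDiff {f g : ℂ → ℝ} (hf : LC f) (hg : ContDiff ℝ 1 g) :
    LC (fun z => f z * g z) := by
  obtain ⟨τ, h1, h2, h3⟩ := exists_cutoff hf.2
  have h4 : LC (fun z => τ z * g z) := LC.of_contDiff ((h1.of_le (by norm_cast)).mul hg) h2.mul_right
  have h5 := hf.mul h4
  have h6 : (fun z => f z * g z) = fun z => f z * (τ z * g z) := by
    funext z
    by_cases hz : z ∈ tsupport f
    · rw [h3 z hz, one_mul]
    · rw [image_eq_zero_of_notMem_tsupport hz, zero_mul, zero_mul]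
  rw [h6]
  exact h5

lemma LC.ae_differentiableAt {f : ℂ → ℝ} (hf : LC f) : ∀ᵐ z, DifferentiableAt ℝ f z := by
  obtain ⟨⟨C, hC⟩, _⟩ := hf
  exact hC.ae_differentiableAt

lemma LC.integrable {f : ℂ → ℝ} (hf : LC f) : Integrable f :=
  hf.continuous.integrable_of_hasCompactSupport hf.2

lemma measurable_pd (f : ℂ → ℝ) (v : ℂ) : Measurable (pd v f) :=
  measurable_fderiv_apply_const ℝ f v

lemma measurable_gr (f : ℂ → ℝ) : Measurable (gr f) :=
  ((measurable_pd f 1).pow_const 2).add ((measurable_pd f Complex.I).pow_const 2)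

lemma abs_pd_le {f : ℂ → ℝ} {C : ℝ≥0} (h : LipschitzWith C f) (v z : ℂ) :
    |pd v f z| ≤ C * ‖v‖ := by
  have h1 := norm_fderiv_le_of_lipschitz ℝ h (x₀ := z)
  calc |pd v f z| ≤ ‖fderiv ℝ f z‖ * ‖v‖ := (fderiv ℝ f z).le_opNorm v
    _ ≤ C * ‖v‖ := by gcongr

lemma pd_eq_zero_of_notMem {f : ℂ → ℝ} (v : ℂ) {z : ℂ} (hz : z ∉ tsupport f) : pd v f z = 0 := by
  unfold pd
  rw [fderiv_of_notMem_tsupport ℝ hz]
  simp

lemma integrable_of_bdd_of_support {h : ℂ → ℝ} (hm : Measurable h) {K : Set ℂ} (hK : IsCompact K)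
    {C : ℝ} (hb : ∀ z, |h z| ≤ C) (hz : ∀ z ∉ K, h z = 0) : Integrable h := by
  have h1 : IntegrableOn h K := by
    apply Measure.integrableOn_of_bounded (M := C) hK.measure_lt_top.ne hm.aestronglyMeasurable
    exact Eventually.of_forall hb
  exact (integrableOn_iff_integrable_of_support_subset (fun z hz' => by
    by_contra hc
    exact hz' (hz z hc))).1 h1

lemma LC.integrable_pd {f : ℂ → ℝ} (hf : LC f) (v : ℂ) : Integrable (pd v f) := by
  obtain ⟨⟨C, hC⟩, hc⟩ := hf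
  exact integrable_of_bdd_of_support (measurable_pd f v) hc (abs_pd_le hC v)
    (fun z hz => pd_eq_zero_of_notMem v hz)

lemma LC.integrable_gr {f : ℂ → ℝ} (hf : LC f) : Integrable (gr f) := by
  obtain ⟨⟨C, hC⟩, hc⟩ := hf
  refine integrable_of_bdd_of_support (C := C ^ 2 + C ^ 2) (measurable_gr f) hc (fun z => ?_)
    (fun z hz => ?_)
  · have h1 := abs_pd_le hC 1 z
    have h2 := abs_pd_le hC Complex.I z
    rw [norm_one, mul_one] at h1
    rw [Complex.norm_I, mul_one] at h2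
    rw [abs_of_nonneg (gr_nonneg f z)]
    unfold gr
    have h3 := sq_le_sq' (by linarith [neg_abs_le (pd 1 f z), abs_nonneg (pd 1 f z)])
      ((le_abs_self _).trans h1)
    have h4 := sq_le_sq' (by linarith [neg_abs_le (pd Complex.I f z), abs_nonneg (pd Complex.I f z)])
      ((le_abs_self _).trans h2)
    linarith
  · unfold gr
    rw [pd_eq_zero_of_notMem _ hz, pd_eq_zero_of_notMem _ hz]
    norm_num

/-- the integral of a directional derivative of a compactly supported Lipschitz function is `0` -/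
lemma LC.integral_pd {f : ℂ → ℝ} (hf : LC f) (v : ℂ) : ∫ z, pd v f z = 0 := by
  have hae := hf.ae_differentiableAt
  obtain ⟨⟨C, hC⟩, hc⟩ := hf
  have h1 : LipschitzWith 0 (fun _ : ℂ => (1:ℝ)) := LipschitzWith.const 1
  have h2 := LipschitzWith.integral_lineDeriv_mul_eq (μ := volume) h1 hC hc (-v)
  have h3 : ∀ z : ℂ, lineDeriv ℝ (fun _ : ℂ => (1:ℝ)) z (-v) = 0 := by
    intro z; simp [lineDeriv]
  simp only [h3, zero_mul, integral_zero, mul_one, neg_neg] at h2
  rw [h2]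
  apply integral_congr_ae
  filter_upwards [hae] with z hz
  exact hz.lineDeriv_eq_fderiv.symm

lemma sq_lc {χ : ℂ → ℝ} (h : LC χ) : LC (fun z => χ z * χ z) := h.mul h

/-- pointwise identity for the energy of `χ φ` -/
lemma gr_mul_eq {χ φ : ℂ → ℝ} (hφ : ContDiff ℝ ∞ φ) {z : ℂ} (hz : DifferentiableAt ℝ χ z) :
    gr (fun w => χ w * φ w) z = φ z ^ 2 * gr χ z - χ z ^ 2 * φ z * Δ φ z
      + pd 1 (fun w => (χ w * χ w) * (φ w * pd 1 φ w)) z
      + pd Complex.I (fun w => (χ w * χ w) * (φ w * pd Complex.I φ w)) z := by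
  have h1 : DifferentiableAt ℝ φ z := hφ.differentiable (by simp) z
  have h2 : ∀ v, DifferentiableAt ℝ (pd v φ) z := fun v =>
    (contDiff_pd hφ v).differentiable (by simp) z
  have h3 : ∀ v, DifferentiableAt ℝ (fun w => φ w * pd v φ w) z := fun v => h1.mul (h2 v)
  have h4 : DifferentiableAt ℝ (fun w => χ w * χ w) z := hz.mul hz
  rw [pd_mul h4 (h3 _), pd_mul h4 (h3 _), pd_mul hz hz, pd_mul hz hz, pd_mul h1 (h2 _),
    pd_mul h1 (h2 _), lap_eq hφ]
  unfold gr
  rw [pd_mul hz h1, pd_mul hz h1]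
  ring

/-- energy estimate -/
lemma integral_gr_mul_le {χ φ U : ℂ → ℝ} (hχ : LC χ) (hφ : ContDiff ℝ ∞ φ) (hU : Integrable U)
    (h : ∀ᵐ z, φ z ^ 2 * gr χ z - χ z ^ 2 * φ z * Δ φ z ≤ U z) :
    ∫ z, gr (fun w => χ w * φ w) z ≤ ∫ z, U z := by
  have h0 : LC (fun w => χ w * φ w) := hχ.mul_contDiff (hφ.of_le (by norm_cast))
  have h1 : ∀ v, LC (fun w => (χ w * χ w) * (φ w * pd v φ w)) := fun v =>
    (hχ.mul hχ).mul_contDiff ((hφ.mul (contDiff_pd hφ v)).of_le (by norm_cast))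
  have h2 := (h1 1).integral_pd 1
  have h3 := (h1 Complex.I).integral_pd Complex.I
  have h4 := (h1 1).integrable_pd 1
  have h5 := (h1 Complex.I).integrable_pd Complex.I
  have h6 : Integrable (fun z => U z + pd 1 (fun w => (χ w * χ w) * (φ w * pd 1 φ w)) z) :=
    hU.add h4
  have h7 : Integrable (fun z => U z + pd 1 (fun w => (χ w * χ w) * (φ w * pd 1 φ w)) z
      + pd Complex.I (fun w => (χ w * χ w) * (φ w * pd Complex.I φ w)) z) := h6.add h5
  calc ∫ z, gr (fun w => χ w * φ w) z ≤ ∫ z, (U z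
      + pd 1 (fun w => (χ w * χ w) * (φ w * pd 1 φ w)) z
      + pd Complex.I (fun w => (χ w * χ w) * (φ w * pd Complex.I φ w)) z) := by
        apply integral_mono_ae h0.integrable_gr h7
        filter_upwards [h, hχ.ae_differentiableAt] with z hz1 hz2
        rw [gr_mul_eq hφ hz2]
        linarith
    _ = ∫ z, U z := by
        rw [integral_add h6 h5, integral_add hU h4, h2, h3]
        ring

/-- `gr f z ≤ ‖fderiv ℝ f z‖ ^ 2` -/
lemma gr_le_norm_fderiv (f : ℂ → ℝ) (z : ℂ) : gr f z ≤ ‖fderiv ℝ f z‖ ^ 2 := by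
  set a := pd 1 f z
  set b := pd Complex.I f z
  have h1 : fderiv ℝ f z (a + b * Complex.I) = gr f z := by
    have : (a + b * Complex.I : ℂ) = a • (1:ℂ) + b • Complex.I := by simp
    rw [this, map_add, map_smul, map_smul]
    have e1 : fderiv ℝ f z 1 = a := rfl
    have e2 : fderiv ℝ f z Complex.I = b := rfl
    have e3 : gr f z = a ^ 2 + b ^ 2 := rfl
    rw [e1, e2, e3]
    simp only [smul_eq_mul]
    ring
  have h2 : ‖(a + b * Complex.I : ℂ)‖ ^ 2 = gr f z := by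
    rw [← Complex.normSq_eq_norm_sq, Complex.normSq_add_mul_I]
    rfl
  clear_value a b
  have h3 := (fderiv ℝ f z).le_opNorm (a + b * Complex.I)
  rw [h1, Real.norm_of_nonneg (gr_nonneg f z), ← h2] at h3
  rcases eq_or_lt_of_le (norm_nonneg (a + b * Complex.I : ℂ)) with h4 | h4
  · rw [← h2, ← h4, zero_pow two_ne_zero]
    exact sq_nonneg _
  · rw [← h2]
    have h5 : ‖(a + b * Complex.I : ℂ)‖ ≤ ‖fderiv ℝ f z‖ := by
      by_contra hc
      push Not at hc
      nlinarith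
    exact pow_le_pow_left₀ (norm_nonneg _) h5 2

/-- Cauchy-Schwarz: `|D f (v)| ≤ √(gr f) ‖v‖`, squared -/
lemma fderiv_apply_sq_le (f : ℂ → ℝ) (z v : ℂ) : (fderiv ℝ f z v) ^ 2 ≤ gr f z * ‖v‖ ^ 2 := by
  have h1 : fderiv ℝ f z v = v.re * pd 1 f z + v.im * pd Complex.I f z := by
    have : v = v.re • (1:ℂ) + v.im • Complex.I := by
      simp [Complex.re_add_im]
    conv_lhs => rw [this, map_add, map_smul, map_smul]
    rfl
  have h2 : ‖v‖ ^ 2 = v.re ^ 2 + v.im ^ 2 := by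
    rw [← Complex.normSq_eq_norm_sq, Complex.normSq_apply]
    ring
  rw [h1, h2]
  unfold gr
  nlinarith [sq_nonneg (v.re * pd Complex.I f z - v.im * pd 1 f z)]

end Pool.Agent.R737.HO
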