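import Pool.Agent.R737.HO.Lower

open Filter Topology Set MeasureTheory Laplacian InnerProductSpace
open scoped ContDiff NNReal ENNReal Real

namespace Pool.Agent.R737.HO

variable {lam : ℂ → ℝ}

lemma abs_log_sub_le {r s m : ℝ} (hm : 0 < m) (hr : m ≤ r) (hs : m ≤ s) :
    |Real.log r - Real.log s| ≤ |r - s| / m := by
  have hr0 : 0 < r := hm.trans_le hr
  have hs0 : 0 < s := hm.trans_le hs
  have key : ∀ r s : ℝ, m ≤ r → m ≤ s → Real.log r - Real.log s ≤ |r - s| / m := by
    intro r s hr hs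
    have hr0 : 0 < r := hm.trans_le hr
    have hs0 : 0 < s := hm.trans_le hs
    rw [← Real.log_div hr0.ne' hs0.ne']
    have h1 := Real.log_le_sub_one_of_pos (div_pos hr0 hs0)
    have h2 : r / s - 1 = (r - s) / s := by field_simp
    rw [h2] at h1
    refine h1.trans ?_
    calc (r - s) / s ≤ |r - s| / s := by gcongr; exact le_abs_self _
      _ ≤ |r - s| / m := by gcongr
  rw [abs_le]
  constructor
  · have := key s r hs hr
    rw [abs_sub_comm] at this
    linarith
  · exact key r s hr hs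

lemma slope_log {c₀ : ℝ} (hc₀ : 0 < c₀) (h : ∀ p, 6 ≤ ‖p‖ → c₀ / ‖p‖ ^ 2 ≤ lam p) :
    SlopeLE lam (fun z => √c₀ * Real.log (max ‖z‖ 6)) := by
  intro z ε hε
  have hsc : 0 < √c₀ := Real.sqrt_pos.2 hc₀
  by_cases hz : ‖z‖ < 6
  · have h1 : ∀ᶠ w in 𝓝 z, ‖w‖ < 6 := (continuous_norm.tendsto z).eventually (gt_mem_nhds hz)
    filter_upwards [h1] with w hw
    rw [max_eq_right hw.le, max_eq_right hz.le, sub_self, abs_zero]
    positivity
  · push Not at hz
    have hz0 : 0 < ‖z‖ := by linarith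
    have h1 : √c₀ / ‖z‖ ≤ √(lam z) := by
      have h2 := Real.sqrt_le_sqrt (h z hz)
      rwa [Real.sqrt_div hc₀.le, Real.sqrt_sq hz0.le] at h2
    have hcont : Tendsto (fun w : ℂ => √c₀ / min (max ‖w‖ 6) ‖z‖) (𝓝 z)
        (𝓝 (√c₀ / min (max ‖z‖ 6) ‖z‖)) := by
      have h2 : ContinuousAt (fun w : ℂ => √c₀ / min (max ‖w‖ 6) ‖z‖) z := by
        apply ContinuousAt.div continuousAt_const
        · fun_prop
        · have : 0 < min (max ‖z‖ 6) ‖z‖ := lt_min (lt_max_of_lt_right (by norm_num)) hz0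
          exact this.ne'
      exact h2
    rw [max_eq_left hz, min_self] at hcont
    have h3 : ∀ᶠ w in 𝓝 z, √c₀ / min (max ‖w‖ 6) ‖z‖ < √(lam z) + ε :=
      hcont.eventually (gt_mem_nhds (by linarith))
    filter_upwards [h3] with w hw
    set m := min (max ‖w‖ 6) ‖z‖ with hm
    have hm0 : 0 < m := lt_min (lt_max_of_lt_right (by norm_num)) hz0
    rw [max_eq_left hz, ← mul_sub, abs_mul, abs_of_pos hsc]
    have h4 := abs_log_sub_le hm0 (min_le_left (max ‖w‖ 6) ‖z‖) (min_le_right (max ‖w‖ 6) ‖z‖)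
    have h5 : |max ‖w‖ 6 - ‖z‖| ≤ ‖w - z‖ := by
      have h6 := abs_max_sub_max_le_abs ‖w‖ ‖z‖ 6
      rw [max_eq_left hz] at h6
      exact h6.trans (abs_norm_sub_norm_le w z)
    calc √c₀ * |Real.log (max ‖w‖ 6) - Real.log ‖z‖| ≤ √c₀ * (|max ‖w‖ 6 - ‖z‖| / m) := by
          gcongr
      _ ≤ √c₀ * (‖w - z‖ / m) := by gcongr
      _ = √c₀ / m * ‖w - z‖ := by ring
      _ ≤ (√(lam z) + ε) * ‖w - z‖ := by gcongr

/-- logarithmic growth of the coordinate in terms of the Riemannian distance -/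
theorem log_norm_le (hlam : ContDiff ℝ ∞ lam) (hpos : ∀ z, 0 < lam z)
    (hcomp : IsCompleteMetric lam) {c : ℝ} (hK1 : ∀ z, -c ≤ gaussCurv lam z)
    (hK2 : ∀ z, gaussCurv lam z ≤ 0) :
    ∃ A B : ℝ, 0 < A ∧ 0 < B ∧ ∀ z, Real.log ‖z‖ ≤ A * riemDist lam z 0 + B := by
  obtain ⟨c₀, hc₀, h⟩ := lam_lower hlam hpos hcomp hK1 hK2
  have hs := slope_log hc₀ h
  have hsc : 0 < √c₀ := Real.sqrt_pos.2 hc₀
  refine ⟨1 / √c₀, Real.log 6, by positivity, Real.log_pos (by norm_num), fun z => ?_⟩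
  have h1 := sub_le_riemDist hlam.continuous hs 0 z
  simp only [norm_zero] at h1
  rw [max_eq_right (by norm_num : (0:ℝ) ≤ 6)] at h1
  rw [riemDist_comm z 0]
  have h2 : Real.log ‖z‖ ≤ Real.log (max ‖z‖ 6) := by
    rcases eq_or_ne z 0 with rfl | hz
    · simp only [norm_zero, Real.log_zero]
      exact Real.log_nonneg (by rw [max_eq_right] <;> norm_num)
    · exact Real.log_le_log (norm_pos_iff.2 hz) (le_max_left _ _)
  have h3 : Real.log (max ‖z‖ 6) - Real.log 6 ≤ 1 / √c₀ * riemDist lam 0 z := by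
    rw [one_div, inv_mul_eq_div, le_div_iff₀ hsc]
    linarith
  linarith

/-- the coordinate function has Hadamard order at most one -/
theorem hadamardOrder_id_le (hlam : ContDiff ℝ ∞ lam) (hpos : ∀ z, 0 < lam z)
    (hcomp : IsCompleteMetric lam) {c : ℝ} (hK1 : ∀ z, -c ≤ gaussCurv lam z)
    (hK2 : ∀ z, gaussCurv lam z ≤ 0) :
    hadamardOrder lam (fun z => z) ≤ 1 := by
  obtain ⟨A, B, hA, hB, h⟩ := log_norm_le hlam hpos hcomp hK1 hK2
  unfold hadamardOrder
  apply le_of_forall_gt_imp_ge_of_dense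
  intro a ha
  induction a with
  | bot => simp at ha
  | top => exact le_top
  | coe x =>
    have hx : 1 < x := by exact_mod_cast ha
    apply limsup_le_of_le
    · isBoundedDefault
    set N : ℝ := max 2 (Real.exp (Real.log (A + B) / (x - 1))) with hN
    have htend : Tendsto (fun p : ℂ => Real.log ‖p‖) (cocompact ℂ) atTop :=
      Real.tendsto_log_atTop.comp (tendsto_norm_cocompact_atTop (E := ℂ))
    have hev : ∀ᶠ p : ℂ in cocompact ℂ ⊓ 𝓟 {p : ℂ | 1 < ‖p‖}, A * N + B ≤ Real.log ‖p‖ :=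
      (htend.eventually (eventually_ge_atTop _)).filter_mono inf_le_left
    filter_upwards [hev] with p hp
    rw [EReal.coe_le_coe_iff]
    set D := riemDist lam p 0 with hD
    have h1 := h p
    rw [← hD] at h1
    have hDN : N ≤ D := by
      have : A * N ≤ A * D := by linarith
      exact le_of_mul_le_mul_left this hA
    have hD2 : 2 ≤ D := (le_max_left _ _).trans hDN
    have hD0 : 0 < D := by linarith
    have hlogD : 0 < Real.log D := Real.log_pos (by linarith)
    have h2 : Real.log (A + B) / (x - 1) ≤ Real.log D := by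
      rw [Real.le_log_iff_exp_le hD0]
      exact (le_max_right _ _).trans hDN
    rw [div_le_iff₀ (by linarith)] at h2
    have hlp : 0 < Real.log ‖p‖ := by
      have : 0 < A * N + B := by
        have : 0 < N := lt_of_lt_of_le (by norm_num) (le_max_left _ _)
        positivity
      linarith
    have h3 : Real.log (Real.log ‖p‖) ≤ Real.log ((A + B) * D) := by
      apply Real.log_le_log hlp
      nlinarith
    rw [Real.log_mul (by positivity) hD0.ne'] at h3
    rw [div_le_iff₀ hlogD]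
    linarith

end Pool.Agent.R737.HO
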