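import Pool.Agent.R737.HO.Setup

open Filter Topology Set MeasureTheory Laplacian InnerProductSpace
open scoped ContDiff NNReal ENNReal Real

namespace Pool.Agent.R737.HO

variable {lam : ℂ → ℝ}

/-- the weighted integral is bounded independently of `R ≥ 1` and `s₀` -/
lemma key_bound (hlam : ContDiff ℝ ∞ lam) (hpos : ∀ z, 0 < lam z) (hcomp : IsCompleteMetric lam)
    {G : ℂ → ℝ} (hG : ContDiff ℝ ∞ G)
    (hG1 : ∀ z, 1 ≤ ‖z‖ → Real.exp (2 * G z) = 1 / (‖z‖ ^ 2 * lam z))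
    (hG2 : ∀ z, 1 < ‖z‖ → Δ G z = lam z * gaussCurv lam z)
    {c : ℝ} (hK1 : ∀ z, -c ≤ gaussCurv lam z) (hK2 : ∀ z, gaussCurv lam z ≤ 0) :
    ∃ C : ℝ, ∀ R s₀ : ℝ, 1 ≤ R →
      Integrable (fun z => (cut lam R z * Wt (1 / (8 * π)) s₀ z * Real.exp (1 * G z)) ^ 2 / ‖z‖ ^ 2)
      ∧ ∫ z, (cut lam R z * Wt (1 / (8 * π)) s₀ z * Real.exp (1 * G z)) ^ 2 / ‖z‖ ^ 2 ≤ C := by
  have hpi := Real.pi_pos
  set β : ℝ := 1 / (8 * π) with hβdef
  have hβ : 0 < β := by positivity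
  have hc0 : 0 ≤ c := by linarith [hK1 0, hK2 0]
  obtain ⟨M, hM0, hM⟩ := exists_bound_st
  set φ : ℂ → ℝ := fun z => Real.exp (1 * G z) with hφdef
  have hφ : ContDiff ℝ ∞ φ := contDiff_exp_mul hG 1
  have hφ2 : ∀ z, φ z ^ 2 = Real.exp (2 * G z) := by
    intro z
    simp only [hφdef]
    rw [← Real.exp_nat_mul]
    congr 1
    push_cast
    ring
  have hφpos : ∀ z, 0 < φ z := fun z => Real.exp_pos _
  have hφlam : ∀ z, 1 ≤ ‖z‖ → φ z ^ 2 * lam z = 1 / ‖z‖ ^ 2 := by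
    intro z hz
    rw [hφ2, hG1 z hz]
    have h1 := hpos z
    have h2 : 0 < ‖z‖ := one_pos.trans_le hz
    field_simp
  have hφΔ : ∀ z, 1 < ‖z‖ → -(c / ‖z‖ ^ 2) ≤ φ z * Δ φ z := by
    intro z hz
    have h1 : Δ φ z = φ z * (1 ^ 2 * gr G z + 1 * Δ G z) := lap_exp hG 1 z
    rw [h1, hG2 z hz]
    have h2 := gr_nonneg G z
    have h3 : φ z * (φ z * (1 ^ 2 * gr G z + 1 * (lam z * gaussCurv lam z)))
        = φ z ^ 2 * gr G z + (φ z ^ 2 * lam z) * gaussCurv lam z := by ring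
    rw [h3, hφlam z hz.le]
    have h4 : 0 ≤ φ z ^ 2 * gr G z := by positivity
    have h5 : (1 / ‖z‖ ^ 2) * (-c) ≤ (1 / ‖z‖ ^ 2) * gaussCurv lam z := by
      gcongr
      exact hK1 z
    have h6 : (1 / ‖z‖ ^ 2) * (-c) = -(c / ‖z‖ ^ 2) := by ring
    linarith
  set κ : ℝ := 1 / √(lam 0) with hκdef
  have hκ0 : 0 < κ := one_div_pos.2 (Real.sqrt_pos.2 (hpos 0))
  have hcirc : ∀ r > 1, ∃ z : ℂ, ‖z‖ = r ∧ φ z ≤ κ / r := by
    intro r hr
    have hll : ContDiff ℝ ∞ (fun z => Real.log (lam z)) := hlam.log (fun z => (hpos z).ne')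
    have hsub : ∀ z, 0 ≤ Δ (fun w => Real.log (lam w)) z := by
      intro z
      rw [lap_log_lam hpos]
      have h1 := mul_nonneg (hpos z).le (neg_nonneg.2 (hK2 z))
      nlinarith
    obtain ⟨z, hz, hz'⟩ := exists_circle_ge hll hsub (one_pos.trans hr)
    refine ⟨z, hz, ?_⟩
    have hr0 : 0 < r := one_pos.trans hr
    have hκr : 0 ≤ κ / r := (div_pos hκ0 hr0).le
    have h1 : lam 0 ≤ lam z := (Real.log_le_log_iff (hpos 0) (hpos z)).1 hz'
    have h2 : φ z ^ 2 ≤ (κ / r) ^ 2 := by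
      rw [hφ2, hG1 z (by rw [hz]; exact hr.le), hz, div_pow, hκdef, div_pow, one_pow,
        Real.sq_sqrt (hpos 0).le]
      have h3 := hpos 0
      rw [div_div, mul_comm (lam 0)]
      gcongr
    exact (pow_le_pow_iff_left₀ (hφpos z).le hκr two_ne_zero).1 h2
  -- the fixed annulus term
  set A₀ : ℂ → ℝ := ({z : ℂ | 1 ≤ ‖z‖ ∧ ‖z‖ ≤ Real.exp 1}).indicator
    (fun z => φ z ^ 2 / ‖z‖ ^ 2) with hA₀
  have hann : IsCompact {z : ℂ | 1 ≤ ‖z‖ ∧ ‖z‖ ≤ Real.exp 1} := by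
    have h1 : {z : ℂ | 1 ≤ ‖z‖ ∧ ‖z‖ ≤ Real.exp 1}
        = Metric.closedBall (0:ℂ) (Real.exp 1) ∩ {z : ℂ | 1 ≤ ‖z‖} := by
      ext z
      simp [and_comm]
    rw [h1]
    exact (isCompact_closedBall 0 _).inter_right (isClosed_le continuous_const continuous_norm)
  have hA₀i : Integrable A₀ := by
    rw [hA₀, integrable_indicator_iff hann.isClosed.measurableSet]
    apply ContinuousOn.integrableOn_compact hann
    apply ContinuousOn.div (hφ.continuous.pow 2).continuousOn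
      (continuous_norm.pow 2).continuousOn
    intro z hz
    have : 0 < ‖z‖ := one_pos.trans_le hz.1
    exact (pow_pos this 2).ne'
  set A : ℝ := ∫ z, A₀ z with hA
  refine ⟨2 * (2 * π * κ ^ 2 + 8 * π ^ 2 * (4 * M ^ 2 * A + (2 + c) * (2 * π ^ 2 / β))),
    fun R s₀ hR => ?_⟩
  have hR0 : 0 < R := one_pos.trans_le hR
  have hcut := lc_cut hlam.continuous hpos hcomp hR0
  set W : ℂ → ℝ := Wt β s₀ with hW
  have hWs : ContDiff ℝ ∞ W := contDiff_Wt β s₀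
  set χ : ℂ → ℝ := fun z => cut lam R z * W z with hχdef
  have hχ : LC χ := hcut.mul_contDiff (hWs.of_le (by norm_cast))
  set ψ : ℂ → ℝ := fun z => χ z * φ z with hψdef
  have hψ : LC ψ := hχ.mul_contDiff (hφ.of_le (by norm_cast))
  have hχ0 : ∀ z, ‖z‖ ≤ 1 → χ z = 0 := fun z hz => by
    simp only [hχdef, hW]
    rw [Wt_zero hz, mul_zero]
  have hψ0 : ∀ z, ‖z‖ ≤ 1 → ψ z = 0 := fun z hz => by
    simp only [hψdef]
    rw [hχ0 z hz, zero_mul]
  have hχn : ∀ z, 0 ≤ χ z := fun z => mul_nonneg (cut_nonneg _ _) (Wt_nonneg _ _ _)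
  have hχ1 : ∀ z, χ z ≤ 1 := fun z => mul_le_one₀ (cut_le_one _ _) (Wt_nonneg _ _ _) (Wt_le_one _ _ _)
  have hψi : Integrable (fun z => ψ z ^ 2 / ‖z‖ ^ 2) := by
    have hm : Measurable (fun z => ψ z ^ 2 / ‖z‖ ^ 2) :=
      (hψ.continuous.measurable.pow_const 2).div (measurable_norm.pow_const 2)
    have h1 : Integrable (fun z => ψ z * ψ z) := (hψ.mul hψ).integrable
    refine h1.mono' hm.aestronglyMeasurable (Eventually.of_forall fun z => ?_)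
    rw [Real.norm_of_nonneg (by positivity)]
    rcases le_or_gt ‖z‖ 1 with h2 | h2
    · rw [hψ0 z h2]; simp
    · rw [← sq]
      apply div_le_self (sq_nonneg _)
      nlinarith
  refine ⟨hψi, ?_⟩
  have hX : (∫ z, (χ z * φ z) ^ 2 / ‖z‖ ^ 2) = ∫ z, ψ z ^ 2 / ‖z‖ ^ 2 := rfl
  show (∫ z, (χ z * φ z) ^ 2 / ‖z‖ ^ 2) ≤ _
  rw [hX]
  set X : ℝ := ∫ z, ψ z ^ 2 / ‖z‖ ^ 2 with hXdef
  have hpoinc : X ≤ 2 * π * κ ^ 2 + 8 * π ^ 2 * ∫ z, gr ψ z := by
    apply poincare hψ hψ0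
    intro r hr
    obtain ⟨z, hz, hz'⟩ := hcirc r hr
    refine ⟨z, hz, ?_⟩
    simp only [hψdef]
    rw [abs_of_nonneg (mul_nonneg (hχn z) (hφpos z).le)]
    calc χ z * φ z ≤ 1 * φ z := mul_le_mul_of_nonneg_right (hχ1 z) (hφpos z).le
      _ ≤ κ / r := by rw [one_mul]; exact hz'
  obtain ⟨hWi, hWb⟩ := integral_Wt_sq hβ s₀
  set U : ℂ → ℝ := fun z => (4 * β ^ 2 * (ψ z ^ 2 / ‖z‖ ^ 2) + 4 * M ^ 2 * A₀ z)
    + (2 / R ^ 2 + c) * (W z ^ 2 / ‖z‖ ^ 2) with hUdef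
  have hU1 : Integrable (fun z => 4 * β ^ 2 * (ψ z ^ 2 / ‖z‖ ^ 2)) := hψi.const_mul _
  have hU2 : Integrable (fun z => 4 * M ^ 2 * A₀ z) := hA₀i.const_mul _
  have hU3 : Integrable (fun z => (2 / R ^ 2 + c) * (W z ^ 2 / ‖z‖ ^ 2)) := hWi.const_mul _
  have hU12 : Integrable (fun z => 4 * β ^ 2 * (ψ z ^ 2 / ‖z‖ ^ 2) + 4 * M ^ 2 * A₀ z) :=
    hU1.add hU2
  have hU : Integrable U := hU12.add hU3
  have hUval : ∫ z, U z = 4 * β ^ 2 * X + 4 * M ^ 2 * A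
      + (2 / R ^ 2 + c) * ∫ z, W z ^ 2 / ‖z‖ ^ 2 := by
    simp only [hUdef]
    rw [integral_add hU12 hU3, integral_add hU1 hU2]
    have e1 : ∫ z, 4 * β ^ 2 * (ψ z ^ 2 / ‖z‖ ^ 2) = 4 * β ^ 2 * X := integral_const_mul _ _
    have e2 : ∫ z, 4 * M ^ 2 * A₀ z = 4 * M ^ 2 * A := integral_const_mul _ _
    have e3 : ∫ z, (2 / R ^ 2 + c) * (W z ^ 2 / ‖z‖ ^ 2)
        = (2 / R ^ 2 + c) * ∫ z, W z ^ 2 / ‖z‖ ^ 2 := integral_const_mul _ _
    rw [e1, e2, e3]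
  have hae : ∀ᵐ z, φ z ^ 2 * gr χ z - χ z ^ 2 * φ z * Δ φ z ≤ U z := by
    filter_upwards [ae_norm_ne_one, hcut.ae_differentiableAt] with z hz1 hd
    rcases lt_or_gt_of_ne hz1 with hz | hz
    · have h1 : χ =ᶠ[𝓝 z] fun _ => 0 := by
        have : ∀ᶠ w in 𝓝 z, ‖w‖ < 1 := (continuous_norm.tendsto z).eventually (gt_mem_nhds hz)
        filter_upwards [this] with w hw
        exact hχ0 w hw.le
      have h2 : gr χ z = 0 := by
        unfold gr pd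
        rw [h1.fderiv_eq]
        simp
      have h3 : A₀ z = 0 := by
        rw [hA₀, indicator_of_notMem]
        intro hc
        exact absurd hc.1 (not_le.2 hz)
      have h4 : W z = 0 := Wt_zero hz.le
      simp only [hUdef]
      rw [h2, hχ0 z hz.le, hψ0 z hz.le, h3, h4]
      simp
    · have hz0 : z ≠ 0 := by
        rintro rfl
        simp at hz
        linarith
      have hn : 0 < ‖z‖ ^ 2 := by positivity
      have hWd : DifferentiableAt ℝ W z := hWs.differentiable (by simp) z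
      have h1 : gr χ z ≤ 2 * cut lam R z ^ 2 * gr W z + 2 * W z ^ 2 * gr (cut lam R) z := by
        unfold gr
        simp only [hχdef]
        rw [pd_mul hd hWd, pd_mul hd hWd]
        nlinarith [sq_nonneg (cut lam R z * pd 1 W z - W z * pd 1 (cut lam R) z),
          sq_nonneg (cut lam R z * pd Complex.I W z - W z * pd Complex.I (cut lam R) z)]
      have h2 : gr W z ≤ ((if ‖z‖ ≤ Real.exp 1 then 2 * M ^ 2 else 0)
          + 2 * β ^ 2 * (W z) ^ 2) / ‖z‖ ^ 2 := gr_Wt_le hβ.le hM hz0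
      have h3 := gr_cut_le hlam.continuous hpos hR0 z
      have h4 := hφlam z hz.le
      have h5 := hφΔ z hz
      have hc1 := cut_nonneg (lam := lam) R z
      have hc2 := cut_le_one (lam := lam) R z
      set q := cut lam R z with hq
      have hq2 : q ^ 2 ≤ 1 := pow_le_one₀ hc1 hc2
      -- first term
      have h6 : φ z ^ 2 * gr χ z ≤ 4 * β ^ 2 * (ψ z ^ 2 / ‖z‖ ^ 2) + 4 * M ^ 2 * A₀ z
          + 2 / R ^ 2 * (W z ^ 2 / ‖z‖ ^ 2) := by
        have h7 : A₀ z = (if ‖z‖ ≤ Real.exp 1 then 1 else 0) * (φ z ^ 2 / ‖z‖ ^ 2) := by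
          rw [hA₀]
          by_cases h8 : ‖z‖ ≤ Real.exp 1
          · rw [indicator_of_mem (show z ∈ {z : ℂ | 1 ≤ ‖z‖ ∧ ‖z‖ ≤ Real.exp 1} from ⟨hz.le, h8⟩),
              if_pos h8, one_mul]
          · rw [indicator_of_notMem (fun hc => h8 hc.2), if_neg h8, zero_mul]
        have h8 : φ z ^ 2 * (2 * q ^ 2 * gr W z) ≤ 4 * M ^ 2 * A₀ z
            + 4 * β ^ 2 * (ψ z ^ 2 / ‖z‖ ^ 2) := by
          have h9 : φ z ^ 2 * (2 * q ^ 2 * gr W z) ≤ φ z ^ 2 * (2 * q ^ 2 *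
              (((if ‖z‖ ≤ Real.exp 1 then 2 * M ^ 2 else 0)
                + 2 * β ^ 2 * (W z) ^ 2) / ‖z‖ ^ 2)) := by gcongr
          refine h9.trans ?_
          have h10 : φ z ^ 2 * (2 * q ^ 2 * (((if ‖z‖ ≤ Real.exp 1 then 2 * M ^ 2 else 0)
                + 2 * β ^ 2 * (W z) ^ 2) / ‖z‖ ^ 2))
              = q ^ 2 * (4 * M ^ 2 * A₀ z) + 4 * β ^ 2 * (ψ z ^ 2 / ‖z‖ ^ 2) := by
            rw [h7]
            simp only [hψdef, hχdef]
            rw [← hq]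
            split_ifs
            · field_simp
              ring
            · field_simp
              ring
          rw [h10]
          have h11 : 0 ≤ 4 * M ^ 2 * A₀ z := by
            rw [h7]
            split_ifs <;> positivity
          nlinarith
        have h12 : φ z ^ 2 * (2 * W z ^ 2 * gr (cut lam R) z) ≤ 2 / R ^ 2 * (W z ^ 2 / ‖z‖ ^ 2) := by
          have h13 : φ z ^ 2 * (2 * W z ^ 2 * gr (cut lam R) z)
              ≤ φ z ^ 2 * (2 * W z ^ 2 * (lam z / R ^ 2)) := by gcongr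
          refine h13.trans (le_of_eq ?_)
          have : φ z ^ 2 * (2 * W z ^ 2 * (lam z / R ^ 2))
              = 2 / R ^ 2 * W z ^ 2 * (φ z ^ 2 * lam z) := by ring
          rw [this, h4]
          ring
        have h14 : φ z ^ 2 * gr χ z ≤ φ z ^ 2 * (2 * q ^ 2 * gr W z
            + 2 * W z ^ 2 * gr (cut lam R) z) := by gcongr
        rw [mul_add] at h14
        linarith
      have h15 : -(χ z ^ 2 * φ z * Δ φ z) ≤ c * (W z ^ 2 / ‖z‖ ^ 2) := by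
        have h16 : -(χ z ^ 2 * φ z * Δ φ z) = χ z ^ 2 * (-(φ z * Δ φ z)) := by ring
        rw [h16]
        have h17 : χ z ^ 2 * (-(φ z * Δ φ z)) ≤ χ z ^ 2 * (c / ‖z‖ ^ 2) := by
          gcongr
          linarith
        refine h17.trans ?_
        have h18 : χ z ^ 2 ≤ W z ^ 2 := by
          simp only [hχdef]
          rw [← hq, mul_pow]
          nlinarith [sq_nonneg (W z)]
        calc χ z ^ 2 * (c / ‖z‖ ^ 2) ≤ W z ^ 2 * (c / ‖z‖ ^ 2) := by gcongr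
          _ = c * (W z ^ 2 / ‖z‖ ^ 2) := by ring
      simp only [hUdef]
      rw [add_mul]
      linarith
  have henergy : ∫ z, gr ψ z ≤ ∫ z, U z := integral_gr_mul_le hχ hφ hU hae
  rw [hUval] at henergy
  have hWnn : 0 ≤ ∫ z, W z ^ 2 / ‖z‖ ^ 2 := integral_nonneg fun z => by positivity
  have hR2 : 2 / R ^ 2 + c ≤ 2 + c := by
    have : 2 / R ^ 2 ≤ 2 := div_le_self (by norm_num) (one_le_pow₀ hR)
    linarith
  have hW2 : (2 / R ^ 2 + c) * ∫ z, W z ^ 2 / ‖z‖ ^ 2 ≤ (2 + c) * (2 * π ^ 2 / β) := by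
    apply mul_le_mul hR2 hWb hWnn
    positivity
  have hβ2 : 8 * π ^ 2 * (4 * β ^ 2) = 1 / 2 := by
    rw [hβdef]
    field_simp
    norm_num
  have hfin : X ≤ 2 * π * κ ^ 2 + 8 * π ^ 2 * (4 * β ^ 2 * X + 4 * M ^ 2 * A
      + (2 + c) * (2 * π ^ 2 / β)) := by
    refine hpoinc.trans ?_
    gcongr
    linarith
  have h19 : 8 * π ^ 2 * (4 * β ^ 2 * X + 4 * M ^ 2 * A + (2 + c) * (2 * π ^ 2 / β))
      = 1 / 2 * X + 8 * π ^ 2 * (4 * M ^ 2 * A + (2 + c) * (2 * π ^ 2 / β)) := by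
    rw [← hβ2]
    ring
  rw [h19] at hfin
  linarith

end Pool.Agent.R737.HO
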