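import Mathlib

open Filter Topology Set MeasureTheory Laplacian InnerProductSpace
open scoped ContDiff

namespace Pool.Agent.R737.HO

/-- partial derivative in the direction `v` -/
noncomputable def pd (v : ℂ) (f : ℂ → ℝ) (z : ℂ) : ℝ := fderiv ℝ f z v

/-- squared norm of the gradient -/
noncomputable def gr (f : ℂ → ℝ) (z : ℂ) : ℝ := (pd 1 f z) ^ 2 + (pd Complex.I f z) ^ 2

lemma gr_nonneg (f : ℂ → ℝ) (z : ℂ) : 0 ≤ gr f z := by unfold gr; positivity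

lemma contDiff_pd {f : ℂ → ℝ} (hf : ContDiff ℝ ∞ f) (v : ℂ) : ContDiff ℝ ∞ (pd v f) := by
  have h1 : ContDiff ℝ ∞ (fderiv ℝ f) := hf.fderiv_right (m := ∞) (by norm_cast)
  exact h1.clm_apply contDiff_const

lemma lap_eq_at {f : ℂ → ℝ} {z : ℂ} (hf : ContDiffAt ℝ 2 f z) :
    Δ f z = pd 1 (pd 1 f) z + pd Complex.I (pd Complex.I f) z := by
  rw [laplacian_eq_iteratedFDeriv_complexPlane]
  have h1 : DifferentiableAt ℝ (fderiv ℝ f) z :=
    (hf.fderiv_right (m := 1) (by norm_num)).differentiableAt (by norm_num)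
  simp only [iteratedFDeriv_two_apply, pd]
  have h2 : ∀ v : ℂ, fderiv ℝ (fun y => fderiv ℝ f y v) z = (fderiv ℝ (fderiv ℝ f) z).flip v := by
    intro v
    rw [fderiv_clm_apply h1 (differentiableAt_const v)]
    ext w
    simp
  have h3 : ∀ v : ℂ, fderiv ℝ (pd v f) z = (fderiv ℝ (fderiv ℝ f) z).flip v := h2
  rw [h3 1, h3 Complex.I]
  simp

lemma lap_eq {f : ℂ → ℝ} (hf : ContDiff ℝ ∞ f) (z : ℂ) :
    Δ f z = pd 1 (pd 1 f) z + pd Complex.I (pd Complex.I f) z :=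
  lap_eq_at (hf.contDiffAt.of_le (by norm_cast))

lemma pd_exp {g : ℂ → ℝ} (hg : ContDiff ℝ ∞ g) (t : ℝ) (v z : ℂ) :
    pd v (fun w => Real.exp (t * g w)) z = t * (Real.exp (t * g z) * pd v g z) := by
  have h1 : HasFDerivAt g (fderiv ℝ g z) z := (hg.differentiable (by simp) z).hasFDerivAt
  have h2 := (h1.const_mul t).exp
  unfold pd
  rw [h2.fderiv]
  simp
  ring

lemma contDiff_exp_mul {g : ℂ → ℝ} (hg : ContDiff ℝ ∞ g) (t : ℝ) :
    ContDiff ℝ ∞ (fun w => Real.exp (t * g w)) := (contDiff_const.mul hg).exp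

lemma pd_mul {f g : ℂ → ℝ} {z : ℂ} (hf : DifferentiableAt ℝ f z) (hg : DifferentiableAt ℝ g z)
    (v : ℂ) : pd v (fun w => f w * g w) z = f z * pd v g z + g z * pd v f z := by
  unfold pd
  rw [fderiv_fun_mul hf hg]
  simp

lemma pd_const_mul {f : ℂ → ℝ} {z : ℂ} (hf : DifferentiableAt ℝ f z) (t : ℝ)
    (v : ℂ) : pd v (fun w => t * f w) z = t * pd v f z := by
  unfold pd
  rw [fderiv_const_mul hf]
  simp

lemma pd_pd_exp {g : ℂ → ℝ} (hg : ContDiff ℝ ∞ g) (t : ℝ) (v z : ℂ) :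
    pd v (pd v (fun w => Real.exp (t * g w))) z
      = Real.exp (t * g z) * (t ^ 2 * (pd v g z) ^ 2 + t * pd v (pd v g) z) := by
  have h0 : pd v (fun w => Real.exp (t * g w))
      = fun w => t * (Real.exp (t * g w) * pd v g w) := by
    funext w; exact pd_exp hg t v w
  have h1 : DifferentiableAt ℝ (fun w => Real.exp (t * g w)) z :=
    (contDiff_exp_mul hg t).differentiable (by simp) z
  have h2 : DifferentiableAt ℝ (pd v g) z := (contDiff_pd hg v).differentiable (by simp) z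
  have h12 : DifferentiableAt ℝ (fun w => Real.exp (t * g w) * pd v g w) z := h1.mul h2
  rw [h0, pd_const_mul h12, pd_mul h1 h2, pd_exp hg]
  ring

/-- Laplacian of `exp (t g)` -/
lemma lap_exp {g : ℂ → ℝ} (hg : ContDiff ℝ ∞ g) (t : ℝ) (z : ℂ) :
    Δ (fun w => Real.exp (t * g w)) z = Real.exp (t * g z) * (t ^ 2 * gr g z + t * Δ g z) := by
  rw [lap_eq (contDiff_exp_mul hg t), lap_eq hg, pd_pd_exp hg, pd_pd_exp hg, gr]
  ring

lemma gr_exp {g : ℂ → ℝ} (hg : ContDiff ℝ ∞ g) (t : ℝ) (z : ℂ) :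
    gr (fun w => Real.exp (t * g w)) z = t ^ 2 * (Real.exp (t * g z)) ^ 2 * gr g z := by
  unfold gr
  rw [pd_exp hg, pd_exp hg]
  ring

/-- a smooth positive function on `ℂ` equal to `‖z‖²` for `‖z‖ ≥ 1` -/
lemma exists_smooth_normSq : ∃ a : ℂ → ℝ, ContDiff ℝ ∞ a ∧ (∀ z, 0 < a z) ∧
    ∀ z, 1 ≤ ‖z‖ → a z = ‖z‖ ^ 2 := by
  let ρ : ContDiffBump (0 : ℂ) := ⟨1/2, 1, by norm_num, by norm_num⟩
  refine ⟨fun z => ‖z‖ ^ 2 + ρ z, (contDiff_norm_sq ℝ).add ρ.contDiff, fun z => ?_, fun z hz => ?_⟩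
  · rcases eq_or_ne z 0 with rfl | hz
    · have : ρ 0 = 1 := ρ.one_of_mem_closedBall (by simp [ρ])
      simp [this]
    · have h1 : 0 < ‖z‖ := norm_pos_iff.2 hz
      have h2 : 0 ≤ ρ z := ρ.nonneg
      positivity
  · have : ρ z = 0 := ρ.zero_of_le_dist (by simpa [ρ] using hz)
    simp [this]

lemma lap_log_norm {z : ℂ} (hz : z ≠ 0) : Δ (fun w : ℂ => Real.log (‖w‖ ^ 2)) z = 0 := by
  have h1 : HarmonicAt (fun w : ℂ => Real.log ‖w‖) z :=
    AnalyticAt.harmonicAt_log_norm analyticAt_id hz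
  have h2 : (fun w : ℂ => Real.log (‖w‖ ^ 2)) = (2:ℝ) • (fun w : ℂ => Real.log ‖w‖) := by
    funext w
    simp [Real.log_pow]
  rw [h2, laplacian_smul _ h1.1, h1.2.self_of_nhds]
  simp

end Pool.Agent.R737.HO
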