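import Pool.Agent.R737.HO.Key

open Filter Topology Set MeasureTheory Laplacian InnerProductSpace
open scoped ContDiff NNReal ENNReal Real

namespace Pool.Agent.R737.HO

variable {lam : ℂ → ℝ}

lemma ball_change (f : ℂ → ℝ) (p : ℂ) {ρ : ℝ} (hρ : 0 < ρ) :
    ∫ ξ in Metric.ball (0:ℂ) 1, f (p + ρ * ξ) = (ρ ^ 2)⁻¹ * ∫ z in Metric.ball p ρ, f z := by
  rw [← integral_indicator measurableSet_ball, ← integral_indicator measurableSet_ball]
  set h : ℂ → ℝ := (Metric.ball p ρ).indicator f with hh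
  have h1 : (Metric.ball (0:ℂ) 1).indicator (fun ξ => f (p + ρ * ξ)) = fun ξ => h (p + ρ • ξ) := by
    funext ξ
    have e : p + ρ • ξ = p + ρ * ξ := by simp
    rw [e]
    by_cases hξ : ξ ∈ Metric.ball (0:ℂ) 1
    · rw [indicator_of_mem hξ, hh, indicator_of_mem]
      rw [Metric.mem_ball, dist_eq_norm, add_sub_cancel_left, norm_mul, Complex.norm_real,
        Real.norm_of_nonneg hρ.le]
      have : ‖ξ‖ < 1 := by simpa using hξ
      nlinarith
    · rw [indicator_of_notMem hξ, hh, indicator_of_notMem]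
      rw [Metric.mem_ball, dist_eq_norm, add_sub_cancel_left, norm_mul, Complex.norm_real,
        Real.norm_of_nonneg hρ.le, not_lt]
      have : 1 ≤ ‖ξ‖ := by simpa using hξ
      nlinarith
  rw [h1]
  have h2 := Measure.integral_comp_smul (μ := (volume : Measure ℂ)) (fun x => h (p + x)) ρ
  rw [h2, integral_add_left_eq_self h p, Complex.finrank_real_complex]
  rw [abs_of_pos (by positivity)]
  rfl

/-- main lower bound: `lam z ≥ c₀ / |z|²` far away -/
theorem lam_lower (hlam : ContDiff ℝ ∞ lam) (hpos : ∀ z, 0 < lam z)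
    (hcomp : IsCompleteMetric lam) {c : ℝ} (hK1 : ∀ z, -c ≤ gaussCurv lam z)
    (hK2 : ∀ z, gaussCurv lam z ≤ 0) :
    ∃ c₀ > 0, ∀ p, 6 ≤ ‖p‖ → c₀ / ‖p‖ ^ 2 ≤ lam p := by
  obtain ⟨G, hG, hG1, hG2⟩ := exists_G hlam hpos
  obtain ⟨C, hC⟩ := key_bound hlam hpos hcomp hG hG1 hG2 hK1 hK2
  have hpi := Real.pi_pos
  have hpi3 := Real.pi_gt_three
  have hc0 : 0 ≤ c := by linarith [hK1 0, hK2 0]
  set f : ℂ → ℝ := fun z => Real.exp (2 * G z) with hfdef
  have hf : ContDiff ℝ ∞ f := contDiff_exp_mul hG 2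
  have hf0 : ∀ z, 0 < f z := fun z => Real.exp_pos _
  have hfφ : ∀ z, Real.exp (1 * G z) ^ 2 = f z := by
    intro z
    simp only [hfdef]
    rw [← Real.exp_nat_mul]
    congr 1
    push_cast
    ring
  have hfΔ : ∀ z, 1 < ‖z‖ → -(2 * c / ‖z‖ ^ 2) ≤ Δ f z := by
    intro z hz
    have h1 : Δ f z = f z * (2 ^ 2 * gr G z + 2 * Δ G z) := lap_exp hG 2 z
    rw [h1, hG2 z hz]
    have h2 := gr_nonneg G z
    have h0 : f z * lam z = 1 / ‖z‖ ^ 2 := by
      simp only [hfdef]
      rw [hG1 z hz.le]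
      have h1 := hpos z
      have h2 : 0 < ‖z‖ := one_pos.trans hz
      field_simp
    have h3 : f z * (2 ^ 2 * gr G z + 2 * (lam z * gaussCurv lam z))
        = 4 * f z * gr G z + 2 * ((f z * lam z) * gaussCurv lam z) := by ring
    rw [h3, h0]
    have h4 : 0 ≤ 4 * f z * gr G z := by
      have := hf0 z
      positivity
    have h5 : (1 / ‖z‖ ^ 2) * (-c) ≤ (1 / ‖z‖ ^ 2) * gaussCurv lam z := by
      gcongr
      exact hK1 z
    have h6 : 2 * ((1 / ‖z‖ ^ 2) * (-c)) = -(2 * c / ‖z‖ ^ 2) := by ring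
    linarith
  have hC0 : 0 ≤ C := by
    have := (hC 1 0 le_rfl).2
    refine le_trans ?_ this
    exact integral_nonneg fun z => by positivity
  -- the pointwise bound
  have hmain : ∀ p, 6 ≤ ‖p‖ → f p ≤ 36 * C / π + c / 2 := by
    intro p hp
    set ρ : ℝ := ‖p‖ / 2 with hρdef
    have hρ3 : 3 ≤ ρ := by rw [hρdef]; linarith
    have hρ : 0 < ρ := by linarith
    have hpρ : ‖p‖ = 2 * ρ := by rw [hρdef]; ring
    have hball : ∀ z, ‖z - p‖ ≤ ρ → ρ ≤ ‖z‖ ∧ ‖z‖ ≤ 3 * ρ := by
      intro z hz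
      have h1 := norm_sub_norm_le p z
      have h2 := norm_sub_norm_le z p
      rw [norm_sub_rev] at h1
      constructor <;> linarith
    have hmv := mean_value (p := p) hf hρ (κ := 2 * c / ρ ^ 2) (by positivity) (fun z hz => by
      have h1 := (hball z hz).1
      have h2 := hfΔ z (by linarith)
      have h3 : 2 * c / ‖z‖ ^ 2 ≤ 2 * c / ρ ^ 2 := by gcongr
      linarith)
    rw [ball_change f p hρ] at hmv
    have e1 : 2 * c / ρ ^ 2 * ρ ^ 2 * π / 4 = c * π / 2 := by
      field_simp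
      ring
    rw [e1] at hmv
    -- choose R
    have hDc := continuous_dist hlam.continuous (0:ℂ) (lam := lam)
    obtain ⟨R₀, hR₀⟩ := (isCompact_closedBall p ρ).exists_bound_of_continuousOn hDc.continuousOn
    set R : ℝ := max R₀ 1 with hR
    have hR1 : 1 ≤ R := le_max_right _ _
    obtain ⟨hi, hX⟩ := hC R (Real.log ‖p‖) hR1
    set Ψ : ℂ → ℝ := fun z => (cut lam R z * Wt (1 / (8 * π)) (Real.log ‖p‖) z
      * Real.exp (1 * G z)) ^ 2 / ‖z‖ ^ 2 with hΨ
    have hΨ0 : ∀ z, 0 ≤ Ψ z := fun z => by simp only [hΨ]; positivity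
    have h1 : ∀ z ∈ Metric.ball p ρ, f z ≤ 36 * ρ ^ 2 * Ψ z := by
      intro z hz
      have hz' : ‖z - p‖ ≤ ρ := by
        rw [← dist_eq_norm]
        exact (Metric.mem_ball.1 hz).le
      obtain ⟨h2, h3⟩ := hball z hz'
      have hzpos : 0 < ‖z‖ := by linarith
      have h4 : cut lam R z = 1 := by
        apply cut_eq_one (by linarith)
        have := hR₀ z (Metric.ball_subset_closedBall hz)
        rw [Real.norm_eq_abs] at this
        exact (le_abs_self _).trans (this.trans (le_max_left _ _))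
      have h5 : 1 / 2 ≤ Wt (1 / (8 * π)) (Real.log ‖p‖) z := by
        apply Wt_ge_half (by positivity)
        · rw [div_le_one (by positivity)]
          linarith
        · have := Real.exp_one_lt_d9
          linarith
        · rw [hpρ, ← Real.log_div hzpos.ne' (by positivity), abs_le]
          have hl2 : Real.log 2 ≤ 1 := by
            have := Real.log_two_lt_d9
            linarith
          constructor
          · have h6 : (1:ℝ) / 2 ≤ ‖z‖ / (2 * ρ) := by
              rw [div_le_div_iff₀ (by norm_num) (by positivity)]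
              linarith
            have h7 := Real.log_le_log (by norm_num) h6
            rw [one_div, Real.log_inv] at h7
            linarith
          · have h6 : ‖z‖ / (2 * ρ) ≤ 2 := by
              rw [div_le_iff₀ (by positivity)]
              linarith
            have h7 := Real.log_le_log (by positivity) h6
            linarith
      simp only [hΨ]
      rw [h4, one_mul, mul_pow, hfφ]
      have h6 : (1/2 : ℝ) ^ 2 ≤ Wt (1 / (8 * π)) (Real.log ‖p‖) z ^ 2 :=
        pow_le_pow_left₀ (by norm_num) h5 2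
      have h7 : ‖z‖ ^ 2 ≤ 9 * ρ ^ 2 := by nlinarith
      rw [mul_div_assoc', le_div_iff₀ (by positivity)]
      have h8 := hf0 z
      calc f z * ‖z‖ ^ 2 ≤ f z * (9 * ρ ^ 2) := by gcongr
        _ = 36 * ρ ^ 2 * ((1/2 : ℝ) ^ 2 * f z) := by ring
        _ ≤ 36 * ρ ^ 2 * (Wt (1 / (8 * π)) (Real.log ‖p‖) z ^ 2 * f z) := by gcongr
    have h9 : ∫ z in Metric.ball p ρ, f z ≤ 36 * ρ ^ 2 * C := by
      have i1 : IntegrableOn f (Metric.ball p ρ) :=
        (hf.continuous.continuousOn.integrableOn_compact (isCompact_closedBall p ρ)).mono_set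
          Metric.ball_subset_closedBall
      have i2 : Integrable (fun z => 36 * ρ ^ 2 * Ψ z) := hi.const_mul _
      calc ∫ z in Metric.ball p ρ, f z ≤ ∫ z in Metric.ball p ρ, 36 * ρ ^ 2 * Ψ z :=
            setIntegral_mono_on i1 i2.integrableOn measurableSet_ball h1
        _ ≤ ∫ z, 36 * ρ ^ 2 * Ψ z := by
            apply setIntegral_le_integral i2
            exact Eventually.of_forall fun z => by
              have := hΨ0 z
              show 0 ≤ 36 * ρ ^ 2 * Ψ z
              positivity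
        _ = 36 * ρ ^ 2 * ∫ z, Ψ z := integral_const_mul _ _
        _ ≤ 36 * ρ ^ 2 * C := by gcongr
    have h10 : (ρ ^ 2)⁻¹ * ∫ z in Metric.ball p ρ, f z ≤ 36 * C := by
      calc (ρ ^ 2)⁻¹ * ∫ z in Metric.ball p ρ, f z ≤ (ρ ^ 2)⁻¹ * (36 * ρ ^ 2 * C) := by gcongr
        _ = 36 * C := by field_simp
    have h11 : π * f p ≤ 36 * C + c * π / 2 := by linarith
    have h12 : 36 * C / π + c / 2 = (36 * C + c * π / 2) / π := by field_simp
    rw [h12, le_div_iff₀ hpi]
    linarith
  refine ⟨1 / (36 * C / π + c / 2 + 1), by positivity, fun p hp => ?_⟩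
  have h1 := hmain p hp
  have hp0 : 0 < ‖p‖ := by linarith
  have h2 : f p = 1 / (‖p‖ ^ 2 * lam p) := hG1 p (by linarith)
  rw [h2] at h1
  have h3 := hpos p
  have h4 : 1 / (‖p‖ ^ 2 * lam p) ≤ 36 * C / π + c / 2 + 1 := by linarith
  rw [div_le_iff₀ (by positivity)] at h4
  rw [div_div, div_le_iff₀ (by positivity)]
  linarith

end Pool.Agent.R737.HO
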