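import Pool.Agent.R737.HO.Cutoff

open Filter Topology Set MeasureTheory Laplacian InnerProductSpace
open scoped ContDiff NNReal ENNReal Real

namespace Pool.Agent.R737.HO

variable {lam : ℂ → ℝ}

lemma lap_log_lam (hpos : ∀ z, 0 < lam z) (z : ℂ) :
    Δ (fun w => Real.log (lam w)) z = -(2 * lam z * gaussCurv lam z) := by
  have h := hpos z
  unfold gaussCurv
  field_simp

lemma exists_G (hlam : ContDiff ℝ ∞ lam) (hpos : ∀ z, 0 < lam z) :
    ∃ G : ℂ → ℝ, ContDiff ℝ ∞ G ∧
      (∀ z, 1 ≤ ‖z‖ → Real.exp (2 * G z) = 1 / (‖z‖ ^ 2 * lam z)) ∧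
      (∀ z, 1 < ‖z‖ → Δ G z = lam z * gaussCurv lam z) := by
  obtain ⟨a, ha1, ha2, ha3⟩ := exists_smooth_normSq
  have hla : ContDiff ℝ ∞ (fun z => Real.log (a z)) := ha1.log (fun z => (ha2 z).ne')
  have hll : ContDiff ℝ ∞ (fun z => Real.log (lam z)) := hlam.log (fun z => (hpos z).ne')
  refine ⟨fun z => (-(1/2)) * (Real.log (a z) + Real.log (lam z)),
    contDiff_const.mul (hla.add hll), fun z hz => ?_, fun z hz => ?_⟩
  · have h1 : 2 * ((-(1/2)) * (Real.log (a z) + Real.log (lam z)))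
        = -(Real.log (a z * lam z)) := by
      rw [Real.log_mul (ha2 z).ne' (hpos z).ne']; ring
    rw [h1, Real.exp_neg, Real.exp_log (mul_pos (ha2 z) (hpos z)), ha3 z hz, one_div]
  · have hz0 : z ≠ 0 := by
      rintro rfl
      simp at hz
      linarith
    have h1 : (fun z => (-(1/2)) * (Real.log (a z) + Real.log (lam z)))
        = (-(1/2) : ℝ) • ((fun z => Real.log (a z)) + (fun z => Real.log (lam z))) := by
      funext w; simp
    have c1 : ContDiffAt ℝ 2 (fun z => Real.log (a z)) z := (hla.of_le (by norm_cast)).contDiffAt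
    have c2 : ContDiffAt ℝ 2 (fun z => Real.log (lam z)) z := (hll.of_le (by norm_cast)).contDiffAt
    have h2 : (fun z => Real.log (a z)) =ᶠ[𝓝 z] fun w => Real.log (‖w‖ ^ 2) := by
      have : ∀ᶠ w in 𝓝 z, 1 < ‖w‖ := (continuous_norm.tendsto z).eventually (lt_mem_nhds hz)
      filter_upwards [this] with w hw
      rw [ha3 w hw.le]
    have h3 : Δ (fun z => Real.log (a z)) z = 0 := by
      have h4 := (laplacian_congr_nhds h2).self_of_nhds
      rw [h4, lap_log_norm hz0]
    have c3 : ContDiffAt ℝ 2 ((fun z => Real.log (a z)) + (fun z => Real.log (lam z))) z :=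
      c1.add c2
    rw [h1, laplacian_smul _ c3, c1.laplacian_add c2, h3, lap_log_lam hpos]
    simp only [smul_eq_mul]
    ring

end Pool.Agent.R737.HO
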